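import Mathlib
import Pool.Agent.Helper20.MR.Perm

/-! Definitions for the lower bound on the determinantal complexity of the permanent. -/

namespace Pool.Agent.Helper73.DC

open Finset

section

variable {F : Type*} [Field F] {N : ℕ}

/-- The quadratic form `∑ u_j ^ 2 - (∑ u_j) ^ 2`. -/
def qE (u : Fin N → F) : F := ∑ j, u j ^ 2 - (∑ j, u j) ^ 2

/-- The quadratic form `∑ t_j u_j ^ 2`. -/
def qA (t u : Fin N → F) : F := ∑ j, t j * u j ^ 2

/-- `Phi = 2 A_t - X E`. -/
def qPhi (t : Fin N → F) (X : F) (u : Fin N → F) : F := 2 * qA t u - X * qE u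

/-- `Theta = A_t - (X / N) E`. -/
def qTh (t : Fin N → F) (X : F) (u : Fin N → F) : F := qA t u - X / (N : F) * qE u

/-- The reduced second order form (rows `i` carry `s`, columns `j` carry `t`). -/
def qQ (t s : Fin N → F) (X Y : F) (w : Fin N → Fin N → F) : F :=
  2 * ∑ i, s i * qPhi t X (w i) - 2 * Y * (∑ i, qTh t X (w i) - qTh t X (fun j => ∑ i, w i j))

/-- Everything the anisotropy part has to provide. -/
structure Good (F : Type*) [Field F] (N : ℕ) (t s : Fin N → F) (X Y : F) : Prop where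
  X0 : X ≠ 0
  Y0 : Y ≠ 0
  ht : ∑ j, t j = ((N : F) - 1) * X
  hs : ∑ i, s i = ((N : F) - 1) * Y
  aniso : ∀ w : Fin N → Fin N → F, (∀ i, ∑ j, t j * w i j = 0) → (∀ j, ∑ i, s i * w i j = 0) →
    qQ t s X Y w = 0 → w = 0

/-- The special zero of the permanent: row and column `0` are special, the rest is all ones. -/
def pt (t s : Fin N → F) (X Y : F) : Fin (N + 1) → Fin (N + 1) → F :=
  Fin.cons (Fin.cons (-(X * Y) / (N : F)) (fun j => X - t j))
    (fun i => Fin.cons (Y - s i) (fun _ => 1))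

/-- The matrix of affine forms `A₀ + ∑ Y_a A_a`. -/
noncomputable def affMat {R : Type*} [CommRing R] {S : Type*} [Fintype S] {m : ℕ}
    (A₀ : Matrix (Fin m) (Fin m) R) (A : S → Matrix (Fin m) (Fin m) R) :
    Matrix (Fin m) (Fin m) (MvPolynomial S R) :=
  fun i j => MvPolynomial.C (A₀ i j) + ∑ a, MvPolynomial.C (A a i j) * MvPolynomial.X a

end

end Pool.Agent.Helper73.DC
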