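import Mathlib
import Pool.Agent.Helper20.MR.Count

/-! Expansions of the permanent: Laplace along the first column, first and second derivatives. -/

namespace Pool.Agent.Helper73.DC

open Finset Pool.Agent.Helper20.MR

/-- Expansion along column `0`. -/
theorem permMl_cons {R : Type*} [CommRing R] {N : ℕ} (r : Fin (N + 1) → R)
    (q : Fin N → Fin (N + 1) → R) :
    permMl (Fin (N + 1)) R (Fin.cons r q) = r 0 * permMl (Fin N) R (fun i j => q i j.succ) +
      ∑ i, q i 0 * permMl (Fin N) R
        (Function.update (fun i j => q i j.succ) i (fun j => r j.succ)) := by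
  have h0 : ∀ (M : Fin (N + 1) → Fin (N + 1) → R), permMl (Fin (N + 1)) R M =
      ∑ σ : Equiv.Perm (Fin (N + 1)), ∏ j, M (σ j) j := fun M =>
    (permanent_eq (M : Matrix (Fin (N + 1)) (Fin (N + 1)) R)).symm
  have h1 : ∀ (M : Fin N → Fin N → R), permMl (Fin N) R M =
      ∑ σ : Equiv.Perm (Fin N), ∏ j, M (σ j) j := fun M =>
    (permanent_eq (M : Matrix (Fin N) (Fin N) R)).symm
  rw [h0, ← Equiv.sum_comp Equiv.Perm.decomposeFin.symm, Fintype.sum_prod_type,
    Fin.sum_univ_succ]
  congr 1
  · rw [h1, Finset.mul_sum]
    refine Finset.sum_congr rfl fun e _ => ?_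
    rw [Fin.prod_univ_succ]
    simp
  · refine Finset.sum_congr rfl fun i _ => ?_
    rw [h1, Finset.mul_sum]
    refine Finset.sum_congr rfl fun e _ => ?_
    rw [Fin.prod_univ_succ]
    simp only [Equiv.Perm.decomposeFin_symm_apply_zero, Fin.cons_succ,
      Equiv.Perm.decomposeFin_symm_apply_succ]
    congr 1
    refine Finset.prod_congr rfl fun j _ => ?_
    by_cases h : e j = i
    · rw [h, Equiv.swap_apply_right, Function.update_self]
      rfl
    · rw [Equiv.swap_apply_of_ne_of_ne (Fin.succ_ne_zero _)
        (fun h' => h (Fin.succ_injective _ h')), Function.update_of_ne h]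
      rfl

section deriv

variable {N : Type*} [Fintype N] [DecidableEq N] {F : Type*} [CommRing F]

open Polynomial

theorem derivative_permMl (P : N → N → F[X]) :
    derivative (permMl N F[X] P) =
      ∑ k, permMl N F[X] (Function.update P k (fun j => derivative (P k j))) := by
  simp only [permMl_apply, derivative_sum]
  rw [Finset.sum_comm]
  refine Finset.sum_congr rfl fun σ _ => ?_
  rw [Polynomial.derivative_prod_finset]
  refine Finset.sum_congr rfl fun k _ => ?_
  rw [← Finset.mul_prod_erase Finset.univ _ (Finset.mem_univ k), Function.update_self, mul_comm]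
  congr 1
  refine Finset.prod_congr rfl fun i hi => ?_
  rw [Function.update_of_ne (Finset.ne_of_mem_erase hi)]

/-- first derivative of the permanent at `M` in direction `w` -/
noncomputable def pD1 (M w : N → N → F) : F := ∑ k, permMl N F (Function.update M k (w k))

/-- second derivative of the permanent at `M` in directions `w`, `w'` -/
noncomputable def pD2 (M w w' : N → N → F) : F :=
  ∑ k, ∑ l, permMl N F (Function.update (Function.update M k (w k)) l (if l = k then 0 else w' l))

theorem pD_eq_zero [IsDomain F] [Infinite F] (M w : N → N → F)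
    (h : ∀ c : F, permMl N F (M + c • w) = 0) : pD1 M w = 0 ∧ pD2 M w w = 0 := by
  set P : N → N → F[X] := fun i j => C (M i j) + X * C (w i j) with hP
  have hp : permMl N F[X] P = 0 := by
    refine Polynomial.funext fun c => ?_
    have h1 := permMl_map (N := N) (Polynomial.evalRingHom c) P
    rw [Polynomial.coe_evalRingHom] at h1
    rw [h1, Polynomial.eval_zero, ← h c]
    congr 1
    funext i j
    simp only [hP, eval_add, eval_C, eval_mul, eval_X, Pi.add_apply, Pi.smul_apply, smul_eq_mul]
  have hd : ∀ k, (fun j => derivative (P k j)) = fun j => C (w k j) := by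
    intro k
    funext j
    simp [hP]
  have hP0 : ∀ i j, eval 0 (P i j) = M i j := by
    intro i j
    simp [hP]
  have h1 : ∑ k, permMl N F[X] (Function.update P k (fun j => C (w k j))) = 0 := by
    have := derivative_permMl P
    rw [hp] at this
    simp only [hd, derivative_zero] at this
    exact this.symm
  have hev : ∀ (Z : N → N → F[X]), eval 0 (permMl N F[X] Z) =
      permMl N F (fun i j => eval 0 (Z i j)) := by
    intro Z
    have h1 := permMl_map (N := N) (Polynomial.evalRingHom 0) Z
    rwa [Polynomial.coe_evalRingHom] at h1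
  have hup : ∀ (Z : N → N → F[X]) (k : N) (r : N → F[X]),
      (fun i j => eval 0 (Function.update Z k r i j)) =
        Function.update (fun i j => eval 0 (Z i j)) k (fun j => eval 0 (r j)) := by
    intro Z k r
    funext i j
    by_cases h : i = k
    · subst h; simp
    · simp [h]
  refine ⟨?_, ?_⟩
  · have h2 := congrArg (eval 0) h1
    rw [eval_finsetSum, eval_zero] at h2
    rw [pD1, ← h2]
    refine Finset.sum_congr rfl fun k _ => ?_
    rw [hev, hup]
    simp [hP0]
  · have h2 := congrArg derivative h1
    rw [derivative_sum, derivative_zero] at h2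
    simp only [derivative_permMl] at h2
    have h3 := congrArg (eval 0) h2
    rw [eval_finsetSum, eval_zero] at h3
    rw [pD2, ← h3]
    refine Finset.sum_congr rfl fun k _ => ?_
    rw [eval_finsetSum]
    refine Finset.sum_congr rfl fun l _ => ?_
    rw [hev, hup, hup]
    congr 1
    congr 1
    · congr 1
      · funext i j; rw [hP0]
      · funext j; simp
    · by_cases hlk : l = k
      · subst hlk
        simp
        rfl
      · rw [if_neg hlk]
        funext j
        rw [Function.update_of_ne hlk]
        simp [hP]

theorem pD2_comm (M w w' : N → N → F) : pD2 M w w' = pD2 M w' w := by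
  unfold pD2
  rw [Finset.sum_comm]
  refine Finset.sum_congr rfl fun k _ => Finset.sum_congr rfl fun l _ => ?_
  by_cases h : k = l
  · subst h
    rw [if_pos rfl, if_pos rfl, (permMl N F).map_update_zero, (permMl N F).map_update_zero]
  · rw [if_neg h, if_neg (Ne.symm h), Function.update_comm (Ne.symm h)]

theorem pD2_add_left (M w₁ w₂ w' : N → N → F) :
    pD2 M (w₁ + w₂) w' = pD2 M w₁ w' + pD2 M w₂ w' := by
  unfold pD2
  simp only [← Finset.sum_add_distrib]
  refine Finset.sum_congr rfl fun k _ => Finset.sum_congr rfl fun l _ => ?_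
  by_cases h : l = k
  · subst h
    simp only [if_pos, (permMl N F).map_update_zero, add_zero]
  · rw [if_neg h, Function.update_comm (Ne.symm h), Function.update_comm (Ne.symm h),
      Function.update_comm (Ne.symm h), Pi.add_apply, (permMl N F).map_update_add]

theorem pD2_smul_left (M w w' : N → N → F) (c : F) :
    pD2 M (c • w) w' = c * pD2 M w w' := by
  unfold pD2
  simp only [Finset.mul_sum]
  refine Finset.sum_congr rfl fun k _ => Finset.sum_congr rfl fun l _ => ?_
  by_cases h : l = k
  · subst h
    simp only [if_pos, (permMl N F).map_update_zero, mul_zero]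
  · rw [if_neg h, Function.update_comm (Ne.symm h), Function.update_comm (Ne.symm h),
      Pi.smul_apply, (permMl N F).map_update_smul, smul_eq_mul]

theorem pD2_add_right (M w w₁ w₂ : N → N → F) :
    pD2 M w (w₁ + w₂) = pD2 M w w₁ + pD2 M w w₂ := by
  rw [pD2_comm, pD2_add_left, pD2_comm M w₁, pD2_comm M w₂]

theorem pD2_smul_right (M w w' : N → N → F) (c : F) :
    pD2 M w (c • w') = c * pD2 M w w' := by
  rw [pD2_comm, pD2_smul_left, pD2_comm M w']

/-- the bilinear form `pD2 M` -/
noncomputable def pB (M : N → N → F) : (N → N → F) →ₗ[F] (N → N → F) →ₗ[F] F :=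
  LinearMap.mk₂ F (pD2 M) (pD2_add_left M) (fun c w w' => by rw [pD2_smul_left, smul_eq_mul])
    (pD2_add_right M) (fun c w w' => by rw [pD2_smul_right, smul_eq_mul])

@[simp] theorem pB_apply (M w w' : N → N → F) : pB M w w' = pD2 M w w' := rfl

end deriv

end Pool.Agent.Helper73.DC
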