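import Mathlib
import Pool.Agent.Helper20.MR.Irred
import Pool.Agent.Helper73.DC.PermExp
import Pool.Agent.Helper14.DC.Hensel

/-! The generic permanent is irreducible over every field; its degrees and first derivatives. -/

namespace Pool.Agent.Helper73.DC

open MvPolynomial Pool.Agent.Helper20.MR

variable {N : Type*} [Fintype N] [DecidableEq N]

theorem pderiv_ne_zero' {K τ : Type*} [Field K] (w : MvPolynomial τ K) (p : τ)
    (h : degreeOf p w = 1) : pderiv p w ≠ 0 := by
  classical
  have hv : p ∈ w.vars := mem_vars_iff_degreeOf_ne_zero.mpr (by omega)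
  obtain ⟨m, hm, hpm⟩ := (mem_vars_iff_mem_support p).mp hv
  intro h0
  have h1 : coeff (m - Finsupp.single p 1) (pderiv p w) = 0 := by rw [h0, coeff_zero]
  rw [coeff_pderiv] at h1
  have h2 : m - Finsupp.single p 1 + Finsupp.single p 1 = m := by
    refine tsub_add_cancel_of_le ?_
    rw [Finsupp.single_le_iff]
    exact Nat.one_le_iff_ne_zero.mpr (Finsupp.mem_support_iff.mp hpm)
  have h3 := monomial_le_degreeOf p hm
  have h4 := Finsupp.mem_support_iff.mp hpm
  have h5 : m p = 1 := by omega
  rw [h2, Finsupp.tsub_apply, Finsupp.single_eq_same, h5] at h1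
  simp only [Nat.sub_self, Nat.cast_zero, zero_add, mul_one] at h1
  exact (mem_support_iff.mp hm) h1

theorem permPoly_ne_zero {K : Type*} [Field K] : permPoly N K ≠ 0 := by
  intro h0
  have h1 : aeval (fun q : N × N => if q.1 = q.2 then (1 : K) else 0) (permPoly N K) = 1 := by
    rw [aeval_permPoly]
    exact permMl_permMatrix (Equiv.refl N)
  rw [h0, map_zero] at h1
  exact zero_ne_one h1

theorem isUnit_of_dvd_permPoly' {K : Type*} [Field K] (w : MvPolynomial (N × N) K)
    (hw : w ∣ permPoly N K) (p₀ : N × N) (hp₀ : degreeOf p₀ w = 0) : IsUnit w := by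
  obtain ⟨h, hh⟩ := hw
  have hP : permPoly N K ≠ 0 := permPoly_ne_zero
  have hw0 : w ≠ 0 := by
    rintro rfl
    exact hP (by rw [hh, zero_mul])
  have hh0 : h ≠ 0 := by
    rintro rfl
    exact hP (by rw [hh, mul_zero])
  have hdeg : ∀ p, degreeOf p w + degreeOf p h = 1 := by
    intro p
    rw [← degreeOf_mul_eq hw0 hh0, ← hh]
    exact le_antisymm (degreeOf_permPoly_le p) (one_le_degreeOf_permPoly p)
  -- two variables in one row or one column
  have hline : ∀ p q : N × N, (p.1 = q.1 ∨ p.2 = q.2) → degreeOf p w ≠ 0 → degreeOf q w ≠ 0 := by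
    intro p q hpq hp hq
    have h1 : pderiv q (pderiv p (permPoly N K)) = 0 := by
      have h2 := pderiv_pderiv_permPoly (K := K) (A := MvPolynomial (N × N) K) X p q
      rw [MvPolynomial.aeval_X_left_apply] at h2
      rw [h2]
      unfold hess
      split_ifs with h3
      · rfl
      · have h4 : p.2 = q.2 := hpq.resolve_left h3
        rw [permMl_apply]
        refine Finset.sum_eq_zero fun σ _ => ?_
        by_cases h5 : σ p.1 = p.2
        · refine Finset.prod_eq_zero (Finset.mem_univ q.1) ?_
          rw [Function.update_self]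
          refine Pi.single_eq_of_ne ?_ _
          rw [← h4, ← h5]
          exact fun h6 => h3 (σ.injective h6).symm
        · refine Finset.prod_eq_zero (Finset.mem_univ p.1) ?_
          rw [Function.update_of_ne h3, Function.update_self]
          exact Pi.single_eq_of_ne h5 _
    have hph : pderiv p h = 0 := by
      refine pderiv_eq_zero_of_notMem_vars ?_
      rw [mem_vars_iff_degreeOf_ne_zero]
      have := hdeg p
      omega
    have hqw : pderiv q w = 0 := by
      refine pderiv_eq_zero_of_notMem_vars ?_
      rw [mem_vars_iff_degreeOf_ne_zero]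
      omega
    rw [hh, pderiv_mul, hph, mul_zero, add_zero, pderiv_mul, pderiv_comm', hqw, map_zero,
      zero_mul, zero_add] at h1
    rcases mul_eq_zero.mp h1 with h7 | h7
    · refine pderiv_ne_zero' w p ?_ h7
      have := hdeg p
      omega
    · refine pderiv_ne_zero' h q ?_ h7
      have := hdeg q
      omega
  -- no variables at all
  have hall : ∀ p, degreeOf p w = 0 := by
    intro p
    by_contra hp
    have h1 := hline p (p.1, p₀.2) (Or.inl rfl) hp
    exact hline (p.1, p₀.2) p₀ (Or.inr rfl) h1 hp₀
  rw [isUnit_iff_totalDegree_of_isReduced]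
  have hvars : w.vars = ∅ := by
    rw [Finset.eq_empty_iff_forall_notMem]
    intro p hp
    exact (mem_vars_iff_degreeOf_ne_zero.mp hp) (hall p)
  have hC : w = C (constantCoeff w) := by
    have h1 : w = aeval (fun _ => (0 : MvPolynomial (N × N) K)) w := by
      conv_lhs => rw [← MvPolynomial.aeval_X_left_apply w]
      refine eval₂Hom_congr' rfl ?_ rfl
      intro q hq _
      rw [hvars] at hq
      exact absurd hq (Finset.notMem_empty q)
    conv_lhs => rw [h1]
    exact MvPolynomial.aeval_zero' w
  have hc0 : constantCoeff w ≠ 0 := by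
    intro h0
    rw [h0, map_zero] at hC
    exact hw0 hC
  refine ⟨hc0.isUnit, ?_⟩
  rw [hC, totalDegree_C]

theorem irreducible_permPoly {K : Type*} [Field K] [Nonempty N] : Irreducible (permPoly N K) := by
  obtain ⟨i⟩ := ‹Nonempty N›
  refine ⟨?_, ?_⟩
  · intro hu
    rw [isUnit_iff_totalDegree_of_isReduced] at hu
    have h1 := one_le_degreeOf_permPoly (K := K) (i, i)
    have h2 := degreeOf_le_totalDegree (permPoly N K) (i, i)
    omega
  · intro a b hab
    have ha0 : a ≠ 0 := by
      rintro rfl
      exact permPoly_ne_zero (by rw [hab, zero_mul])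
    have hb0 : b ≠ 0 := by
      rintro rfl
      exact permPoly_ne_zero (by rw [hab, mul_zero])
    have hdeg : degreeOf (i, i) a + degreeOf (i, i) b = 1 := by
      rw [← degreeOf_mul_eq ha0 hb0, ← hab]
      exact le_antisymm (degreeOf_permPoly_le _) (one_le_degreeOf_permPoly _)
    rcases Nat.eq_zero_or_pos (degreeOf (i, i) a) with h | h
    · exact Or.inl (isUnit_of_dvd_permPoly' a ⟨b, hab⟩ (i, i) h)
    · refine Or.inr (isUnit_of_dvd_permPoly' b ⟨a, by rw [hab, mul_comm]⟩ (i, i) ?_)
      omega

theorem isHomogeneous_permPoly {K : Type*} [Field K] :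
    (permPoly N K).IsHomogeneous (Fintype.card N) := by
  rw [permPoly_eq_sum]
  refine IsHomogeneous.sum _ _ _ fun σ _ => ?_
  have h1 := IsHomogeneous.prod (Finset.univ : Finset N)
    (fun i => (X (i, σ i) : MvPolynomial (N × N) K)) (fun _ => 1)
    (fun i _ => isHomogeneous_X K (i, σ i))
  simpa using h1

theorem aeval_pderiv_permPoly {K A : Type*} [Field K] [CommRing A] [Algebra K A]
    (x : N × N → A) (p : N × N) :
    aeval x (pderiv p (permPoly N K)) =
      permMl N A (Function.update (fun i a => x (i, a)) p.1 (Pi.single p.2 1)) := by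
  have h0 : ∀ q : MvPolynomial (N × N) K, aeval x q =
      (Helper14.DC.line (algebraMap K A) x p q).eval 0 := by
    intro q
    rw [Helper14.DC.eval_line, aeval_def]
    congr 1
    funext s
    simp
  rw [h0, ← Helper14.DC.derivative_line]
  have h1 : Helper14.DC.line (algebraMap K A) x p (permPoly N K) =
      permMl N (Polynomial A) (Function.update (fun i b => Polynomial.C (x (i, b))) p.1
        ((fun b => Polynomial.C (x (p.1, b))) +
          (Polynomial.X : Polynomial A) • (Pi.single p.2 1 : N → Polynomial A))) := by
    have h2 := permMl_map (N := N) (eval₂Hom (Polynomial.C.comp (algebraMap K A))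
      (fun s => Polynomial.C (x s) + if s = p then Polynomial.X else 0) :
        MvPolynomial (N × N) K →+* Polynomial A) (fun i a => X (i, a))
    rw [Helper14.DC.line, permPoly]
    refine h2.trans ?_
    congr 1
    funext i b
    simp only [eval₂Hom_X']
    by_cases hi : i = p.1
    · subst hi
      rw [Function.update_self, Pi.add_apply, Pi.smul_apply, smul_eq_mul]
      congr 1
      by_cases hb : b = p.2
      · subst hb
        rw [if_pos rfl, Pi.single_eq_same, mul_one]
      · rw [if_neg (fun h => hb (congrArg Prod.snd h)), Pi.single_eq_of_ne hb, mul_zero]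
    · rw [Function.update_of_ne hi, if_neg (fun h => hi (congrArg Prod.fst h)), add_zero]
  have h3 : ∀ y : N → N → A, permMl N (Polynomial A) (fun i b => Polynomial.C (y i b)) =
      Polynomial.C (permMl N A y) := fun y => (permMl_map Polynomial.C y).symm
  have h4 : Function.update (fun i b => (Polynomial.C (x (i, b)) : Polynomial A)) p.1
      (fun b => Polynomial.C (x (p.1, b))) = fun i b => Polynomial.C (x (i, b)) := by
    funext i b
    by_cases hi : i = p.1
    · subst hi
      rw [Function.update_self]
    · rw [Function.update_of_ne hi]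
  have h5 : Function.update (fun i b => (Polynomial.C (x (i, b)) : Polynomial A)) p.1
      (Pi.single p.2 1) = fun i b => Polynomial.C
        (Function.update (fun i a => x (i, a)) p.1 (Pi.single p.2 1) i b) := by
    funext i b
    by_cases hi : i = p.1
    · subst hi
      rw [Function.update_self, Function.update_self]
      by_cases hb : b = p.2
      · subst hb
        simp
      · rw [Pi.single_eq_of_ne hb, Pi.single_eq_of_ne hb, map_zero]
    · rw [Function.update_of_ne hi, Function.update_of_ne hi]
  rw [h1, (permMl N (Polynomial A)).map_update_add, (permMl N (Polynomial A)).map_update_smul,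
    h4, h5, h3 (fun i b => x (i, b)), h3]
  simp

end Pool.Agent.Helper73.DC
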