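import Pool.Agent.Helper24.DC.Special
/-! The descent with the special weights (helper24), over fields in which 2, 3 and r+1 are
invertible. -/
namespace Pool.Agent.Helper73.DCA
open Pool.Agent.Helper24.DC
open Finset Polynomial

section poly
variable {L : Type*} [Field L] {ι : Type*} [Fintype ι] {r : ℕ}

/-- the polynomial version: no vector which is primitive at `X = 0` -/
theorem special_poly (h2L : (2 : L) ≠ 0) (h3L : (3 : L) ≠ 0) (hr1L : (r : L) + 1 ≠ 0)
    (P T : ι → ι → L) (c : ι → L) (s : Fin r → L)
    (hσ : ∑ i, s i ≠ 0)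
    (h1 : ∀ w : Fin r → ι → L, (∀ i, lf c (w i) = 0) → ∑ i, s i * bf P (w i) (w i) = 0 → w = 0)
    (h2 : ∀ u : ι → L, lf c u = 0 → ((r : L) + 2) * bf T u u - bf P u u = 0 → u = 0)
    (w : Fin (r + 2) → ι → L[X]) (hc : ∀ i, lf (fun j => C (c j)) (w i) = 0)
    (hs : ∀ j, ∑ i, spw (s0 s) (fun i => C (s i)) i * w i j = 0)
    (hQ : bigQ (fun j k => C (P j k)) (fun j k => C (T j k)) (spw (s0 s) (fun i => C (s i))) X w = 0) :
    ∀ i j, (w i j).coeff 0 = 0 := by
  set S : Fin (r + 2) → L[X] := spw (s0 s) (fun i => C (s i)) with hS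
  set μ : ι → L[X] := (2 : L[X]) • w 1 - w 0 with hμ
  have hZ : ∑ i, S i = C ((r : L) + 1) * X := by
    rw [hS, spw_sum]
    unfold s0
    rw [← map_sum]
    have : (3 : L[X]) * (C (3⁻¹ : L) * (C (∑ i, s i) - C ((r : L) + 1) * X)) =
        (C (∑ i, s i) - C ((r : L) + 1) * X) := by
      rw [← mul_assoc]
      have e : (3 : L[X]) * C (3⁻¹ : L) = 1 := by
        rw [show (3 : L[X]) = C (3 : L) from (map_ofNat C 3).symm, ← C_mul, mul_inv_cancel₀ h3L, C_1]
      rw [e, one_mul]
    rw [this]; ring
  have hexp := sum_expand (fun j k => C (P j k)) (s0 s) (fun i => C (s i)) _ hZ w hs μ hμ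
  -- constraint for mu
  have hμc : lf (fun j => C (c j)) μ = 0 := by
    rw [hμ, lf_sub, lf_smul, hc, hc]; ring
  -- evaluation at X = 0
  set ev : L[X] →+* L := constantCoeff with hev
  have hevC : ∀ a : L, ev (C a) = a := fun a => by simp [hev]
  have hevX : ev X = 0 := by simp [hev]
  have hev0 : ∀ p : L[X], ev p = p.coeff 0 := fun p => rfl
  -- step 1 : the middle components
  set m : ι → L := fun j => ev (μ j) with hm
  have hmid : ∀ i : Fin r, ∀ j, ev (w i.succ.succ j) = m j := by
    have hq : ev (∑ i : Fin r, C (s i) * bf (fun j k => C (P j k)) (w i.succ.succ - μ)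
        (w i.succ.succ - μ)) = 0 := by
      have h3 : ev (bigQ (fun j k => C (P j k)) (fun j k => C (T j k)) S X w) = 0 := by
        rw [hQ, map_zero]
      unfold bigQ at h3
      rw [map_sub, map_mul, map_mul, map_mul, hevX, hexp, map_sub, map_mul, map_mul, hevX] at h3
      simp only [mul_zero, zero_mul, sub_zero] at h3
      rcases mul_eq_zero.1 h3 with h4 | h4
      · exfalso
        rw [map_ofNat] at h4
        exact h2L h4
      · exact h4
    have h4 := h1 (fun i j => ev (w i.succ.succ j) - m j) (by
      intro i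
      have h5 := congrArg ev (hc i.succ.succ)
      rw [map_lf, map_zero] at h5
      have h6 := congrArg ev hμc
      rw [map_lf, map_zero] at h6
      simp only [hevC] at h5 h6
      have h7 : (fun j => ev (w i.succ.succ j) - m j) =
          (fun j => ev (w i.succ.succ j)) - m := rfl
      rw [h7, lf_sub, h5]
      show 0 - lf c (fun j => ev (μ j)) = 0
      rw [h6, sub_zero]) (by
      rw [map_sum] at hq
      rw [← hq]
      refine sum_congr rfl fun i _ => ?_
      rw [map_mul, hevC, map_bf]
      simp only [hevC, Pi.sub_apply, map_sub]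
      rfl)
    intro i j
    have h5 := congrFun (congrFun h4 i) j
    simp only [Pi.zero_apply] at h5
    exact sub_eq_zero.1 h5
  -- step 1' : components 0 and 1
  have h01 : ∀ j, ev (w 0 j) = m j ∧ ev (w 1 j) = m j := by
    intro j
    have h3 := congrArg ev (hs j)
    rw [Fin.sum_univ_succ, Fin.sum_univ_succ] at h3
    have e3 : S 0 = s0 s := rfl
    have e4 : S (Fin.succ 0) = -4 * s0 s := rfl
    have e5 : ∀ i : Fin r, S i.succ.succ = C (s i) := fun i => rfl
    have e6 : w (Fin.succ 0) = w 1 := rfl
    rw [e3, e4, e6] at h3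
    simp only [e5] at h3
    rw [map_add, map_add, map_sum, map_mul, map_mul, map_mul, map_zero] at h3
    have h5 : ∀ i : Fin r, ev (C (s i) * w i.succ.succ j) = s i * m j := by
      intro i; rw [map_mul, hevC, hmid]
    rw [sum_congr rfl fun i _ => h5 i, ← sum_mul] at h3
    have h6 : ev (s0 s) = 3⁻¹ * ∑ i, s i := coeff_zero_s0 s
    have h7 : ev (-4 : L[X]) = -4 := by rw [map_neg, map_ofNat]
    rw [h6, h7] at h3
    have h8 : m j = 2 * ev (w 1 j) - ev (w 0 j) := by
      rw [hm]
      simp only [hμ, Pi.sub_apply, Pi.smul_apply, smul_eq_mul, map_sub, map_mul, map_ofNat]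
    have h9 : (∑ i, s i) * (ev (w 1 j) - ev (w 0 j)) = 0 := by
      rw [h8] at h3
      have h10 : (3 : L) * (3⁻¹ * ∑ i, s i) = ∑ i, s i := by
        rw [← mul_assoc, mul_inv_cancel₀ h3L, one_mul]
      set σ := ∑ i, s i
      have h12 : 2 * ((σ) * (ev (w 1 j) - ev (w 0 j))) = 0 := by
        linear_combination 3 * h3 + (-(ev (w 0 j)) + 4 * ev (w 1 j)) * h10
      exact (mul_eq_zero.1 h12).resolve_left h2L
    rcases mul_eq_zero.1 h9 with h10 | h10
    · exact absurd h10 hσ
    · have h11 : ev (w 1 j) = ev (w 0 j) := sub_eq_zero.1 h10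
      rw [h8, h11]
      constructor <;> ring
  -- all rows are congruent to mu
  have hall : ∀ i j, ev (w i j) = m j := by
    intro i j
    refine Fin.cases ?_ (fun i => ?_) i
    · exact (h01 j).1
    · refine Fin.cases ?_ (fun i => ?_) i
      · exact (h01 j).2
      · exact hmid i j
  -- step 2
  have hdiv : ∀ (i : Fin r) (j : ι), ∃ d : L[X], w i.succ.succ j - μ j = X * d := by
    intro i j
    have : (X : L[X]) ∣ w i.succ.succ j - μ j := by
      rw [X_dvd_iff]
      have h3 : ev (w i.succ.succ j - μ j) = 0 := by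
        rw [map_sub, hmid]
        exact sub_self _
      exact h3
    exact this
  choose d hd using hdiv
  have hd' : ∀ i : Fin r, w i.succ.succ - μ = (X : L[X]) • d i := by
    intro i; funext j
    simp only [Pi.sub_apply, Pi.smul_apply, smul_eq_mul]
    exact hd i j
  have hkey : (C ((r : L) + 1) : L[X]) * bf (fun j k => C (P j k)) μ μ +
      (∑ i, bf (fun j k => C (T j k)) (w i) (w i) -
        bf (fun j k => C (T j k)) (∑ i, w i) (∑ i, w i)) =
      X * ∑ i : Fin r, C (s i) * bf (fun j k => C (P j k)) (d i) (d i) := by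
    have h3 := hQ
    unfold bigQ at h3
    rw [hexp] at h3
    simp only [hd', bf_smul_left, bf_smul_right] at h3
    have h4 : ∑ i : Fin r, C (s i) * (X * (X * bf (fun j k => C (P j k)) (d i) (d i))) =
        X * (X * ∑ i : Fin r, C (s i) * bf (fun j k => C (P j k)) (d i) (d i)) := by
      rw [mul_sum, mul_sum]
      refine sum_congr rfl fun i _ => ?_
      ring
    rw [h4] at h3
    have h5 : (2 * X : L[X]) * ((C ((r : L) + 1) : L[X]) * bf (fun j k => C (P j k)) μ μ +
      (∑ i, bf (fun j k => C (T j k)) (w i) (w i) -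
        bf (fun j k => C (T j k)) (∑ i, w i) (∑ i, w i)) -
      X * ∑ i : Fin r, C (s i) * bf (fun j k => C (P j k)) (d i) (d i)) = 0 := by
      linear_combination -h3
    rcases mul_eq_zero.1 h5 with h6 | h6
    · exfalso
      rcases mul_eq_zero.1 h6 with h7 | h7
      · have : (2 : L[X]) = C 2 := (map_ofNat C 2).symm
        rw [this, C_eq_zero] at h7
        exact h2L h7
      · exact X_ne_zero h7
    · exact sub_eq_zero.1 h6
  have hlast : m = 0 := by
    apply h2
    · have h6 := congrArg ev hμc
      rw [map_lf, map_zero] at h6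
      simp only [hevC] at h6
      exact h6
    · have h3 := congrArg ev hkey
      rw [map_add, map_mul, map_sub, map_sum, map_mul, hevX, zero_mul, hevC, map_bf, map_bf] at h3
      simp only [map_bf, hevC, hall, Finset.sum_apply, map_sum] at h3
      have h4 : (fun j => ev (μ j)) = m := rfl
      rw [h4] at h3
      have h5 : (fun j => ∑ i : Fin (r + 2), m j) = (((r : L) + 2)) • m := by
        funext j
        simp
      rw [h5, bf_smul_left, bf_smul_right] at h3
      simp only [sum_const, card_univ, Fintype.card_fin, nsmul_eq_mul] at h3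
      push_cast at h3
      have h6 : ((r : L) + 1) * (((r : L) + 2) * bf T m m - bf P m m) = 0 := by
        have h3' : ((r : L) + 1) * bf P m m + (((r : L) + 2) * bf T m m -
            ((r : L) + 2) * (((r : L) + 2) * bf T m m)) = 0 := h3
        linear_combination -h3'
      rcases mul_eq_zero.1 h6 with h7 | h7
      · exact absurd h7 hr1L
      · exact h7
  intro i j
  have h3 := hall i j
  rw [hlast] at h3
  exact h3

end poly

end Pool.Agent.Helper73.DCA
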