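import Mathlib

/-! Linear algebra: an isotropic subspace bigger than `R` has a vector orthogonal to `R` and not
in `R`. -/

namespace Pool.Agent.Helper73.DC

open Module

theorem exists_mem_notMem {F V : Type*} [Field F] [AddCommGroup V] [Module F V]
    [FiniteDimensional F V] (β : V →ₗ[F] V →ₗ[F] F) (W R : Submodule F V)
    (hW : ∀ w ∈ W, ∀ w' ∈ W, β w w' = 0) (hlt : finrank F R < finrank F W) :
    ∃ w ∈ W, w ∉ R ∧ ∀ r ∈ R, β w r = 0 := by
  by_contra hcon
  push Not at hcon
  let L : W →ₗ[F] Dual F R := (LinearMap.domRestrict' R (R := F) (M₂ := F)).comp (β.comp W.subtype)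
  have hL : ∀ (w : W) (r : R), L w r = β w r := fun w r => rfl
  let S : Submodule F R := W.comap R.subtype
  have h1 : LinearMap.range L ≤ S.dualAnnihilator := by
    rintro _ ⟨w, rfl⟩
    rw [Submodule.mem_dualAnnihilator]
    intro r hr
    rw [hL]
    exact hW _ w.2 _ hr
  have h2 : ∀ w : LinearMap.ker L, ((w : W) : V) ∈ R := by
    intro w
    by_contra h
    obtain ⟨r, hr, h3⟩ := hcon _ (w : W).2 h
    apply h3
    have h4 : L (w : W) = 0 := w.2
    have h5 := hL (w : W) ⟨r, hr⟩
    rw [h4] at h5
    simpa using h5.symm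
  have h3 : finrank F (LinearMap.ker L) ≤ finrank F S := by
    let g : LinearMap.ker L →ₗ[F] S :=
      { toFun := fun w => ⟨⟨((w : W) : V), h2 w⟩, (w : W).2⟩
        map_add' := fun _ _ => rfl
        map_smul' := fun _ _ => rfl }
    refine LinearMap.finrank_le_finrank_of_injective (f := g) ?_
    intro w w' h
    have := congrArg (fun x : S => ((x : R) : V)) h
    exact Subtype.ext (Subtype.ext this)
  have h4 := LinearMap.finrank_range_add_finrank_ker L
  have h5 := Subspace.finrank_add_finrank_dualAnnihilator_eq S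
  have h6 := Submodule.finrank_mono h1
  omega

end Pool.Agent.Helper73.DC
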