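import Mathlib
import Pool.Agent.Helper20.MR.Count

/-! Permanents of matrices with at most three rows different from the all-ones row. -/

namespace Pool.Agent.Helper73.DC

open Finset Pool.Agent.Helper20.MR

section count

variable {N : Type*} [Fintype N] [DecidableEq N]

theorem cnt2_same (i j a : N) (hij : i ≠ j) : cnt2 i j a a = 0 := by
  rw [cnt2, Finset.card_eq_zero, Finset.filter_eq_empty_iff]
  rintro σ _ ⟨h1, h2⟩
  exact hij (σ.injective (h1.trans h2.symm))

theorem cnt3_same (i j k a b d : N) (hij : i ≠ j) (hik : i ≠ k) (hjk : j ≠ k)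
    (h : a = b ∨ a = d ∨ b = d) : cnt3 i j k a b d = 0 := by
  rw [cnt3, Finset.card_eq_zero, Finset.filter_eq_empty_iff]
  rintro σ _ ⟨h1, h2, h3⟩
  rcases h with h | h | h
  · exact hij (σ.injective (h1.trans (h.trans h2.symm)))
  · exact hik (σ.injective (h1.trans (h.trans h3.symm)))
  · exact hjk (σ.injective (h2.trans (h.trans h3.symm)))

theorem cnt1_eq_mul (i j a b : N) (hij : i ≠ j) (hab : a ≠ b) :
    cnt1 i a = (Fintype.card N - 1) * cnt2 i j a b := by
  have h1 : cnt1 i a = ∑ e ∈ Finset.univ.erase a, cnt2 i j a e := by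
    rw [cnt1, Finset.card_eq_sum_card_fiberwise (f := fun σ : Equiv.Perm N => σ j)
      (t := Finset.univ.erase a)]
    · refine Finset.sum_congr rfl fun e _ => ?_
      rw [cnt2, Finset.filter_filter]
    · intro σ hσ
      simp only [Finset.coe_filter, Finset.mem_univ, true_and, Set.mem_ofPred_eq] at hσ
      simp only [Finset.coe_erase, Finset.coe_univ, Set.mem_sdiff, Set.mem_univ, true_and,
        Set.mem_singleton_iff]
      rw [← hσ]
      exact fun h => hij (σ.injective h).symm
  rw [h1, Finset.sum_congr rfl (g := fun _ => cnt2 i j a b), Finset.sum_const, smul_eq_mul]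
  · rw [Finset.card_erase_of_mem (by simp), Finset.card_univ]
  · intro e he
    exact cnt2_eq _ _ _ _ _ _ _ _ hij (Finset.ne_of_mem_erase he).symm hij hab

end count

/-- `(N-3)!` as a number of permutations. -/
def k3 (N : ℕ) : ℕ := Nat.factorial (N - 3)

variable {N : ℕ}

theorem cnt_vals (hN : 3 ≤ N) :
    (∀ i j k a b d : Fin N, i ≠ j → i ≠ k → j ≠ k → a ≠ b → a ≠ d → b ≠ d →
      cnt3 i j k a b d = k3 N) ∧
    (∀ i j a b : Fin N, i ≠ j → a ≠ b → cnt2 i j a b = (N - 2) * k3 N) ∧
    (∀ i a : Fin N, cnt1 i a = (N - 1) * ((N - 2) * k3 N)) := by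
  obtain ⟨p0, p1, p2, h01, h02, h12⟩ : ∃ p0 p1 p2 : Fin N, p0 ≠ p1 ∧ p0 ≠ p2 ∧ p1 ≠ p2 :=
    ⟨⟨0, by omega⟩, ⟨1, by omega⟩, ⟨2, by omega⟩, by simp, by simp, by simp⟩
  have hc := card_eq_mul_cnt1 p0 p0
  have h1 := cnt1_eq_mul p0 p1 p0 p1 h01 h01
  have h2 := cnt2_eq_mul p0 p1 p2 p0 p1 p2 h01 h02 h12 h01 h02 h12
  rw [Fintype.card_perm, Fintype.card_fin] at hc
  rw [Fintype.card_fin] at h1 h2
  have hfac : N.factorial = N * ((N - 1) * ((N - 2) * (N - 3).factorial)) := by
    obtain ⟨M, rfl⟩ := Nat.exists_eq_add_of_le hN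
    rw [show 3 + M = M + 2 + 1 by ring, Nat.factorial_succ,
      show M + 2 + 1 - 1 = M + 2 by omega, show M + 2 + 1 - 2 = M + 1 by omega,
      show M + 2 + 1 - 3 = M by omega, Nat.factorial_succ, Nat.factorial_succ]
  have h3 : cnt3 p0 p1 p2 p0 p1 p2 = k3 N := by
    rw [h1, h2, hfac] at hc
    have e1 : (N - 1) * ((N - 2) * (N - 3).factorial) =
        (N - 1) * ((N - 2) * cnt3 p0 p1 p2 p0 p1 p2) :=
      Nat.eq_of_mul_eq_mul_left (by omega) hc
    have e2 := Nat.eq_of_mul_eq_mul_left (show 0 < N - 1 by omega) e1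
    exact (Nat.eq_of_mul_eq_mul_left (show 0 < N - 2 by omega) e2).symm
  rw [h3] at h2
  rw [h2] at h1
  refine ⟨?_, ?_, ?_⟩
  · intro i j k a b d hij hik hjk hab had hbd
    rw [← h3]
    exact cnt3_eq _ _ _ _ _ _ _ _ _ _ _ _ hij hik hjk hab had hbd h01 h02 h12 h01 h02 h12
  · intro i j a b hij hab
    rw [← h2]
    exact cnt2_eq _ _ _ _ _ _ _ _ hij hab h01 h01
  · intro i a
    rw [← h1]
    exact cnt1_eq _ _ _ _

section perm

variable {R : Type*} [CommRing R]

theorem perm_J (hN : 3 ≤ N) :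
    permMl (Fin N) R (J (Fin N) R) = ((N * ((N - 1) * ((N - 2) * k3 N)) : ℕ) : R) := by
  have p0 : Fin N := ⟨0, by omega⟩
  rw [permMl_J, card_eq_mul_cnt1 p0 p0, (cnt_vals hN).2.2, Fintype.card_fin]

theorem perm_J1 (hN : 3 ≤ N) (i : Fin N) (u : Fin N → R) :
    permMl (Fin N) R (Function.update (J (Fin N) R) i u) =
      (((N - 1) * ((N - 2) * k3 N) : ℕ) : R) * ∑ j, u j := by
  rw [permMl_J1, Finset.mul_sum]
  refine Finset.sum_congr rfl fun a _ => ?_
  rw [(cnt_vals hN).2.2]

theorem perm_J2 (hN : 3 ≤ N) (i l : Fin N) (h : i ≠ l) (u v : Fin N → R) :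
    permMl (Fin N) R (Function.update (Function.update (J (Fin N) R) i u) l v) =
      (((N - 2) * k3 N : ℕ) : R) * ((∑ j, u j) * (∑ j, v j) - ∑ j, u j * v j) := by
  rw [permMl_J2 i l h, Finset.sum_mul_sum, ← Finset.sum_sub_distrib, Finset.mul_sum]
  refine Finset.sum_congr rfl fun a _ => ?_
  have h1 : ∀ b : Fin N, (cnt2 i l a b : R) * (u a * v b) =
      (((N - 2) * k3 N : ℕ) : R) * (u a * v b - if b = a then u a * v a else 0) := by
    intro b
    by_cases hb : b = a
    · subst hb
      rw [cnt2_same i l b h]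
      simp
    · rw [(cnt_vals hN).2.1 i l a b h (Ne.symm hb), if_neg hb, sub_zero]
  rw [Finset.sum_congr rfl (fun b _ => h1 b), ← Finset.mul_sum, Finset.sum_sub_distrib,
    Finset.sum_ite_eq' Finset.univ a, if_pos (Finset.mem_univ a)]

theorem perm_J3 (hN : 3 ≤ N) (i l m : Fin N) (hil : i ≠ l) (him : i ≠ m) (hlm : l ≠ m)
    (u v w : Fin N → R) :
    permMl (Fin N) R (Function.update (Function.update (Function.update (J (Fin N) R) i u) l v)
      m w) = (k3 N : R) * ((∑ j, u j) * (∑ j, v j) * (∑ j, w j)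
        - (∑ j, u j * v j) * (∑ j, w j) - (∑ j, u j * w j) * (∑ j, v j)
        - (∑ j, v j * w j) * (∑ j, u j) + 2 * ∑ j, u j * v j * w j) := by
  rw [permMl_J3 i l m hil him hlm]
  have h1 : ∀ a b f : Fin N, (cnt3 i l m a b f : R) * (u a * (v b * w f)) =
      (k3 N : R) * (u a * v b * w f - (if b = a then u a * v a else 0) * w f -
        (if f = a then u a * w a else 0) * v b - (if f = b then v b * w b else 0) * u a +
        2 * (if b = a then (if f = a then u a * v a * w a else 0) else 0)) := by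
    intro a b f
    by_cases hba : b = a
    · subst hba
      rw [cnt3_same i l m b b f hil him hlm (Or.inl rfl)]
      by_cases hfb : f = b
      · subst hfb
        simp
        ring
      · simp [hfb]
    · by_cases hfa : f = a
      · subst hfa
        rw [cnt3_same i l m f b f hil him hlm (Or.inr (Or.inl rfl))]
        simp [hba, Ne.symm hba]
        ring
      · by_cases hfb : f = b
        · subst hfb
          rw [cnt3_same i l m a f f hil him hlm (Or.inr (Or.inr rfl))]
          simp [hba]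
          ring
        · rw [(cnt_vals hN).1 i l m a b f hil him hlm (Ne.symm hba) (Ne.symm hfa) (Ne.symm hfb)]
          simp [hba, hfa, hfb]
          ring
  simp_rw [h1]
  have e1 : ∑ a, ∑ b, ∑ f, u a * v b * w f = (∑ j, u j) * (∑ j, v j) * (∑ j, w j) := by
    simp only [← Finset.mul_sum, ← Finset.sum_mul]
  have e2 : ∑ a, ∑ b, ∑ f, (if b = a then u a * v a else 0) * w f =
      (∑ j, u j * v j) * (∑ j, w j) := by
    simp only [← Finset.mul_sum, ← Finset.sum_mul]
    simp
  have e3 : ∑ a, ∑ b, ∑ f, (if f = a then u a * w a else 0) * v b =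
      (∑ j, u j * w j) * (∑ j, v j) := by
    simp only [← Finset.sum_mul, ← Finset.mul_sum]
    simp
  have e4 : ∑ a, ∑ b, ∑ f, (if f = b then v b * w b else 0) * u a =
      (∑ j, v j * w j) * (∑ j, u j) := by
    simp only [← Finset.sum_mul, ← Finset.mul_sum]
    simp
  have e5 : ∑ a, ∑ b, ∑ f, (if b = a then (if f = a then u a * v a * w a else 0) else 0) =
      ∑ j, u j * v j * w j := by
    refine Finset.sum_congr rfl fun a _ => ?_
    rw [Finset.sum_eq_single a]
    · simp
    · intro b _ hb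
      simp [hb]
    · simp
  rw [← e1, ← e2, ← e3, ← e4, ← e5]
  simp only [Finset.mul_sum, Finset.sum_add_distrib, Finset.sum_sub_distrib, mul_add, mul_sub]

end perm

end Pool.Agent.Helper73.DC
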