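import Mathlib
import Pool.Agent.Helper73.DC.Defs
import Pool.Agent.Helper73.DC.PermExp
import Pool.Agent.Helper73.DC.PermJ

/-! Permanents of matrices with few rows different from the rows of the special point. -/

namespace Pool.Agent.Helper73.DC

open Finset Pool.Agent.Helper20.MR

variable {F : Type*} [Field F] {N : ℕ}

/-- `(N-2)!` in `F` -/
def c2 (F : Type*) [Field F] (N : ℕ) : F := ((N : F) - 2) * (k3 N : F)

/-- `(N-1)!` in `F` -/
def c1 (F : Type*) [Field F] (N : ℕ) : F := ((N : F) - 1) * c2 F N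

theorem cast_c2 (hN : 3 ≤ N) : (((N - 2) * k3 N : ℕ) : F) = c2 F N := by
  rw [c2, Nat.cast_mul, Nat.cast_sub (by omega)]
  norm_num

theorem cast_c1 (hN : 3 ≤ N) : (((N - 1) * ((N - 2) * k3 N) : ℕ) : F) = c1 F N := by
  rw [c1, Nat.cast_mul, cast_c2 hN, Nat.cast_sub (by omega)]
  norm_num

theorem fac_eq (hN : 3 ≤ N) :
    (((N.factorial : ℕ)) : F) = (N : F) * (((N : F) - 1) * (((N : F) - 2) * (k3 N : F))) := by
  have h1 : N.factorial = N * ((N - 1) * ((N - 2) * k3 N)) := by
    obtain ⟨M, rfl⟩ := Nat.exists_eq_add_of_le hN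
    rw [k3, show 3 + M = M + 2 + 1 by ring, Nat.factorial_succ,
      show M + 2 + 1 - 1 = M + 2 by omega, show M + 2 + 1 - 2 = M + 1 by omega,
      show M + 2 + 1 - 3 = M by omega, Nat.factorial_succ, Nat.factorial_succ]
  rw [h1, Nat.cast_mul, cast_c1 hN, c1, c2]

theorem k3_ne' (hF : (((N.factorial : ℕ)) : F) ≠ 0) (hN : 3 ≤ N) : (k3 N : F) ≠ 0 := by
  rw [fac_eq hN] at hF
  exact right_ne_zero_of_mul (right_ne_zero_of_mul (right_ne_zero_of_mul hF))

theorem N_ne' (hF : (((N.factorial : ℕ)) : F) ≠ 0) (hN : 3 ≤ N) : (N : F) ≠ 0 := by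
  rw [fac_eq hN] at hF
  exact left_ne_zero_of_mul hF

theorem N1_ne' (hF : (((N.factorial : ℕ)) : F) ≠ 0) (hN : 3 ≤ N) : (N : F) - 1 ≠ 0 := by
  rw [fac_eq hN] at hF
  exact left_ne_zero_of_mul (right_ne_zero_of_mul hF)

theorem N2_ne' (hF : (((N.factorial : ℕ)) : F) ≠ 0) (hN : 3 ≤ N) : (N : F) - 2 ≠ 0 := by
  rw [fac_eq hN] at hF
  exact left_ne_zero_of_mul (right_ne_zero_of_mul (right_ne_zero_of_mul hF))

theorem two_ne' (hF : (((N.factorial : ℕ)) : F) ≠ 0) (hN : 3 ≤ N) : (2 : F) ≠ 0 := by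
  intro h
  obtain ⟨c, hc⟩ := Nat.dvd_factorial (show 0 < 2 by norm_num) (show 2 ≤ N by omega)
  apply hF
  rw [hc, Nat.cast_mul, Nat.cast_two, h, zero_mul]

theorem c2_ne' (hF : (((N.factorial : ℕ)) : F) ≠ 0) (hN : 3 ≤ N) : c2 F N ≠ 0 :=
  mul_ne_zero (N2_ne' hF hN) (k3_ne' hF hN)

theorem c1_ne' (hF : (((N.factorial : ℕ)) : F) ≠ 0) (hN : 3 ≤ N) : c1 F N ≠ 0 :=
  mul_ne_zero (N1_ne' hF hN) (c2_ne' hF hN)

theorem fac_ne [CharZero F] : (((N.factorial : ℕ)) : F) ≠ 0 :=
  Nat.cast_ne_zero.mpr (Nat.factorial_ne_zero N)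

theorem k3_ne [CharZero F] : (k3 N : F) ≠ 0 := by
  rw [k3]
  exact Nat.cast_ne_zero.mpr (Nat.factorial_ne_zero _)

theorem N_ne [CharZero F] (hN : 3 ≤ N) : (N : F) ≠ 0 := N_ne' fac_ne hN

theorem N1_ne [CharZero F] (hN : 3 ≤ N) : (N : F) - 1 ≠ 0 := N1_ne' fac_ne hN

theorem N2_ne [CharZero F] (hN : 3 ≤ N) : (N : F) - 2 ≠ 0 := N2_ne' fac_ne hN

theorem c2_ne [CharZero F] (hN : 3 ≤ N) : c2 F N ≠ 0 := c2_ne' fac_ne hN

theorem c1_ne [CharZero F] (hN : 3 ≤ N) : c1 F N ≠ 0 := c1_ne' fac_ne hN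

/-- the rows `1, …, N` of the special point -/
def lo (s : Fin N → F) (Y : F) : Fin N → Fin (N + 1) → F :=
  fun i => Fin.cons (Y - s i) (fun _ => 1)

/-- row `0` of the special point -/
def hi (t : Fin N → F) (X Y : F) : Fin (N + 1) → F :=
  Fin.cons (-(X * Y) / (N : F)) (fun j => X - t j)

theorem pt_eq (t s : Fin N → F) (X Y : F) : pt t s X Y = Fin.cons (hi t X Y) (lo s Y) := rfl

theorem tail_lo (s : Fin N → F) (Y : F) : (fun i j => lo s Y i (Fin.succ j)) = J (Fin N) F := rfl

theorem tail_update (q : Fin N → Fin (N + 1) → F) (i : Fin N) (u : Fin (N + 1) → F) :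
    (fun k j => Function.update q i u k (Fin.succ j)) =
      Function.update (fun k j => q k (Fin.succ j)) i (fun j => u j.succ) := by
  funext k j
  by_cases h : k = i
  · subst h; simp
  · simp [h]

theorem update_cons_succ (r : Fin (N + 1) → F) (q : Fin N → Fin (N + 1) → F) (i : Fin N)
    (u : Fin (N + 1) → F) :
    Function.update (Fin.cons r q : Fin (N + 1) → Fin (N + 1) → F) i.succ u =
      Fin.cons r (Function.update q i u) :=
  (Fin.cons_update (α := fun _ => Fin (N + 1) → F) r q i u).symm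

theorem update_cons_zero (r u : Fin (N + 1) → F) (q : Fin N → Fin (N + 1) → F) :
    Function.update (Fin.cons r q : Fin (N + 1) → Fin (N + 1) → F) 0 u = Fin.cons u q :=
  Fin.update_cons_zero (α := fun _ => Fin (N + 1) → F) r q u

theorem sum_y (s : Fin N → F) (Y : F) (hs : ∑ i, s i = ((N : F) - 1) * Y) :
    ∑ i, (Y - s i) = Y := by
  rw [Finset.sum_sub_distrib, hs, Finset.sum_const, Finset.card_univ, Fintype.card_fin,
    nsmul_eq_mul]
  ring

/-- arbitrary row `0` -/
theorem perm_row0 (hN : 3 ≤ N) (s : Fin N → F) (Y : F) (hs : ∑ i, s i = ((N : F) - 1) * Y)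
    (r : Fin (N + 1) → F) :
    permMl (Fin (N + 1)) F (Fin.cons r (lo s Y)) =
      c1 F N * ((N : F) * r 0 + Y * ∑ j : Fin N, r j.succ) := by
  rw [permMl_cons, tail_lo, perm_J hN]
  have h1 : ∀ i : Fin N, lo s Y i 0 * permMl (Fin N) F
      (Function.update (J (Fin N) F) i fun j => r j.succ) =
      (Y - s i) * (c1 F N * ∑ j : Fin N, r j.succ) := by
    intro i
    rw [perm_J1 hN, cast_c1 hN]
    rfl
  rw [Finset.sum_congr rfl (fun i _ => h1 i), ← Finset.sum_mul, sum_y s Y hs, Nat.cast_mul,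
    cast_c1 hN]
  ring

/-- arbitrary row `0` and one arbitrary other row -/
theorem perm_row1 (hN : 3 ≤ N) (s : Fin N → F) (Y : F) (hs : ∑ i, s i = ((N : F) - 1) * Y)
    (r : Fin (N + 1) → F) (i : Fin N) (u : Fin (N + 1) → F) :
    permMl (Fin (N + 1)) F (Fin.cons r (Function.update (lo s Y) i u)) =
      c1 F N * (r 0 * ∑ j : Fin N, u j.succ + u 0 * ∑ j : Fin N, r j.succ) +
        c2 F N * s i * ((∑ j : Fin N, u j.succ) * (∑ j : Fin N, r j.succ) -
          ∑ j : Fin N, u j.succ * r j.succ) := by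
  rw [permMl_cons, tail_update, tail_lo, perm_J1 hN, cast_c1 hN]
  set U := ∑ j : Fin N, u j.succ with hU
  set R := ∑ j : Fin N, r j.succ with hR
  set D := ∑ j : Fin N, u j.succ * r j.succ with hD
  have h1 : ∀ l : Fin N, (Function.update (lo s Y) i u) l 0 * permMl (Fin N) F
      (Function.update (Function.update (J (Fin N) F) i fun j => u j.succ) l
        fun j => r j.succ) =
      (Y - s l) * (c2 F N * (U * R - D)) +
        (if l = i then u 0 * (c1 F N * R) - (Y - s i) * (c2 F N * (U * R - D)) else 0) := by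
    intro l
    by_cases h : l = i
    · subst h
      rw [Function.update_self, Function.update_idem, perm_J1 hN, cast_c1 hN, if_pos rfl]
      ring
    · rw [Function.update_of_ne h, if_neg h, perm_J2 hN i l (Ne.symm h), cast_c2 hN]
      simp only [lo, Fin.cons_zero]
      ring
  rw [Finset.sum_congr rfl (fun l _ => h1 l), Finset.sum_add_distrib, ← Finset.sum_mul,
    sum_y s Y hs, Finset.sum_ite_eq' Finset.univ i, if_pos (Finset.mem_univ i)]
  ring

/-- row `0` arbitrary and two arbitrary other rows -/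
theorem perm_row2 (hN : 3 ≤ N) (s : Fin N → F) (Y : F) (hs : ∑ i, s i = ((N : F) - 1) * Y)
    (r : Fin (N + 1) → F) (i l : Fin N) (hil : i ≠ l) (u v : Fin (N + 1) → F) :
    permMl (Fin (N + 1)) F (Fin.cons r (Function.update (Function.update (lo s Y) i u) l v)) =
      r 0 * (c2 F N * ((∑ j : Fin N, u j.succ) * (∑ j : Fin N, v j.succ) -
          ∑ j : Fin N, u j.succ * v j.succ)) +
      u 0 * (c2 F N * ((∑ j : Fin N, v j.succ) * (∑ j : Fin N, r j.succ) -
          ∑ j : Fin N, v j.succ * r j.succ)) +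
      v 0 * (c2 F N * ((∑ j : Fin N, u j.succ) * (∑ j : Fin N, r j.succ) -
          ∑ j : Fin N, u j.succ * r j.succ)) +
      (s i + s l - Y) * ((k3 N : F) * ((∑ j : Fin N, u j.succ) * (∑ j : Fin N, v j.succ) *
          (∑ j : Fin N, r j.succ)
        - (∑ j : Fin N, u j.succ * v j.succ) * (∑ j : Fin N, r j.succ)
        - (∑ j : Fin N, u j.succ * r j.succ) * (∑ j : Fin N, v j.succ)
        - (∑ j : Fin N, v j.succ * r j.succ) * (∑ j : Fin N, u j.succ)
        + 2 * ∑ j : Fin N, u j.succ * v j.succ * r j.succ)) := by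
  rw [permMl_cons, tail_update, tail_update, tail_lo, perm_J2 hN i l hil, cast_c2 hN]
  set K := (k3 N : F) * ((∑ j : Fin N, u j.succ) * (∑ j : Fin N, v j.succ) *
          (∑ j : Fin N, r j.succ)
        - (∑ j : Fin N, u j.succ * v j.succ) * (∑ j : Fin N, r j.succ)
        - (∑ j : Fin N, u j.succ * r j.succ) * (∑ j : Fin N, v j.succ)
        - (∑ j : Fin N, v j.succ * r j.succ) * (∑ j : Fin N, u j.succ)
        + 2 * ∑ j : Fin N, u j.succ * v j.succ * r j.succ) with hK
  have h1 : ∀ m : Fin N, (Function.update (Function.update (lo s Y) i u) l v) m 0 *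
      permMl (Fin N) F (Function.update (Function.update (Function.update (J (Fin N) F) i
        fun j => u j.succ) l fun j => v j.succ) m fun j => r j.succ) =
      (Y - s m) * K +
        ((if m = i then u 0 * (c2 F N * ((∑ j : Fin N, v j.succ) * (∑ j : Fin N, r j.succ) -
          ∑ j : Fin N, v j.succ * r j.succ)) - (Y - s i) * K else 0) +
        (if m = l then v 0 * (c2 F N * ((∑ j : Fin N, u j.succ) * (∑ j : Fin N, r j.succ) -
          ∑ j : Fin N, u j.succ * r j.succ)) - (Y - s l) * K else 0)) := by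
    intro m
    by_cases hl : m = l
    · subst hl
      rw [Function.update_self, Function.update_idem, perm_J2 hN i m hil, cast_c2 hN,
        if_neg (Ne.symm hil), if_pos rfl]
      ring
    · rw [Function.update_of_ne hl, if_neg hl]
      by_cases hi : m = i
      · subst hi
        rw [Function.update_self, Function.update_comm (Ne.symm hil), Function.update_idem,
          Function.update_comm hil, perm_J2 hN l m (Ne.symm hil), cast_c2 hN, if_pos rfl]
        ring
      · rw [Function.update_of_ne hi, if_neg hi, perm_J3 hN i l m hil (Ne.symm hi) (Ne.symm hl),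
          ← hK]
        simp only [lo, Fin.cons_zero]
        ring
  rw [Finset.sum_congr rfl (fun m _ => h1 m), Finset.sum_add_distrib, ← Finset.sum_mul,
    sum_y s Y hs, Finset.sum_add_distrib, Finset.sum_ite_eq' Finset.univ i,
    if_pos (Finset.mem_univ i), Finset.sum_ite_eq' Finset.univ l, if_pos (Finset.mem_univ l)]
  ring

end Pool.Agent.Helper73.DC
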