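import Mathlib
import Pool.Agent.Helper73.DC.Point
import Pool.Agent.Helper73.DC.LA

/-! The second derivative of the permanent at the special point. -/

namespace Pool.Agent.Helper73.DC

open Finset Pool.Agent.Helper20.MR

section single

variable {N : Type*} [Fintype N] [DecidableEq N] {F : Type*} [CommRing F]

theorem pD2_single (M w : N → N → F) (p : N) (z : N → F) :
    pD2 M w (Pi.single p z) =
      ∑ k, if k = p then 0 else permMl N F (Function.update (Function.update M k (w k)) p z) := by
  unfold pD2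
  refine Finset.sum_congr rfl fun k _ => ?_
  rw [Finset.sum_eq_single p]
  · by_cases h : k = p
    · subst h
      rw [if_pos rfl, if_pos rfl, (permMl N F).map_update_zero]
    · rw [if_neg h, if_neg (Ne.symm h), Pi.single_eq_same]
  · intro l _ hl
    rw [Pi.single_eq_of_ne hl, ite_self, (permMl N F).map_update_zero]
  · intro h
    exact absurd (Finset.mem_univ _) h

theorem pD2_single_self (M w : N → N → F) (p : N) :
    pD2 M w (Pi.single p (M p)) = pD1 M w - permMl N F (Function.update M p (w p)) := by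
  rw [pD2_single, pD1, ← Finset.sum_erase_add Finset.univ _ (Finset.mem_univ p), if_pos rfl,
    ← Finset.sum_erase_add Finset.univ (fun k => permMl N F (Function.update M k (w k)))
      (Finset.mem_univ p), add_zero, add_sub_cancel_right]
  refine Finset.sum_congr rfl fun k hk => ?_
  have hkp := Finset.ne_of_mem_erase hk
  rw [if_neg hkp, Function.update_comm hkp, Function.update_eq_self]

end single

variable {F : Type*} [Field F] {N : ℕ}

theorem perm_row2_hi (hN : 3 ≤ N) (hN0 : (N : F) ≠ 0) (t s : Fin N → F) (X Y : F)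
    (ht : ∑ j, t j = ((N : F) - 1) * X)
    (hs : ∑ i, s i = ((N : F) - 1) * Y) (i l : Fin N) (hil : i ≠ l) (g h : F)
    (u v : Fin N → F) (hu : ∑ j, t j * u j = 0) (hv : ∑ j, t j * v j = 0) :
    permMl (Fin (N + 1)) F (Fin.cons (hi t X Y) (Function.update (Function.update (lo s Y) i
      (Fin.cons g u)) l (Fin.cons h v))) =
      (k3 N : F) * (((N : F) - 2) * (X * Y / N) * (∑ j, u j * v j - (∑ j, u j) * (∑ j, v j)) +
        (s i + s l - Y) * (X * (∑ j, u j * v j - (∑ j, u j) * (∑ j, v j)) -
          2 * ∑ j, t j * (u j * v j))) := by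
  rw [perm_row2 hN s Y hs (hi t X Y) i l hil]
  simp only [hi, Fin.cons_zero, Fin.cons_succ]
  have e1 : ∑ j, (X - t j) = X := sum_y t X ht
  have e2 : ∑ j, u j * (X - t j) = X * ∑ j, u j := by
    simp only [mul_sub, Finset.sum_sub_distrib, ← Finset.sum_mul]
    rw [Finset.sum_congr rfl (fun j _ => mul_comm (u j) (t j)), hu]
    ring
  have e3 : ∑ j, v j * (X - t j) = X * ∑ j, v j := by
    simp only [mul_sub, Finset.sum_sub_distrib, ← Finset.sum_mul]
    rw [Finset.sum_congr rfl (fun j _ => mul_comm (v j) (t j)), hv]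
    ring
  have e4 : ∑ j, u j * v j * (X - t j) = X * ∑ j, u j * v j - ∑ j, t j * (u j * v j) := by
    simp only [mul_sub, Finset.sum_sub_distrib, ← Finset.sum_mul]
    rw [Finset.sum_congr rfl (fun j _ => mul_comm (u j * v j) (t j))]
    ring
  rw [e1, e2, e3, e4, c2]
  field_simp
  ring

theorem sum_bil {t s : Fin N → F} (v : Fin N → Fin N → F) :
    (∑ i, ∑ l, (∑ j, v i j * v l j - (∑ j, v i j) * (∑ j, v l j)) = qE (fun j => ∑ i, v i j)) ∧
    (∑ i, ∑ l, ∑ j, t j * (v i j * v l j) = qA t (fun j => ∑ i, v i j)) ∧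
    (∑ i, ∑ l, s i * (∑ j, v i j * v l j - (∑ j, v i j) * (∑ j, v l j)) =
      ∑ j, (∑ i, s i * v i j) * (∑ i, v i j) -
        (∑ j, ∑ i, s i * v i j) * (∑ j, ∑ i, v i j)) ∧
    (∑ i, ∑ l, s i * ∑ j, t j * (v i j * v l j) =
      ∑ j, t j * ((∑ i, s i * v i j) * (∑ i, v i j))) := by
  refine ⟨?_, ?_, ?_, ?_⟩
  · simp only [Finset.sum_sub_distrib]
    rw [qE]
    congr 1
    · calc ∑ i, ∑ l, ∑ j, v i j * v l j = ∑ i, ∑ j, v i j * ∑ l, v l j := by
            refine Finset.sum_congr rfl fun i _ => ?_
            rw [Finset.sum_comm]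
            simp only [Finset.mul_sum]
        _ = ∑ j, (∑ i, v i j) ^ 2 := by
            rw [Finset.sum_comm]
            refine Finset.sum_congr rfl fun j _ => ?_
            rw [← Finset.sum_mul, sq]
    · rw [Finset.sum_comm (f := fun j i => v i j), sq, Finset.sum_mul_sum]
  · rw [qA]
    calc ∑ i, ∑ l, ∑ j, t j * (v i j * v l j) = ∑ i, ∑ j, v i j * (t j * ∑ l, v l j) := by
          refine Finset.sum_congr rfl fun i _ => ?_
          rw [Finset.sum_comm]
          refine Finset.sum_congr rfl fun j _ => ?_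
          rw [Finset.mul_sum, Finset.mul_sum]
          refine Finset.sum_congr rfl fun l _ => ?_
          ring
      _ = ∑ j, t j * (∑ i, v i j) ^ 2 := by
          rw [Finset.sum_comm]
          refine Finset.sum_congr rfl fun j _ => ?_
          rw [← Finset.sum_mul]
          ring
  · simp only [mul_sub, Finset.sum_sub_distrib]
    congr 1
    · calc ∑ i, ∑ l, s i * ∑ j, v i j * v l j = ∑ i, ∑ j, (s i * v i j) * ∑ l, v l j := by
            refine Finset.sum_congr rfl fun i _ => ?_
            rw [← Finset.mul_sum, Finset.sum_comm, Finset.mul_sum]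
            refine Finset.sum_congr rfl fun j _ => ?_
            rw [← Finset.mul_sum, mul_assoc]
        _ = ∑ j, (∑ i, s i * v i j) * (∑ i, v i j) := by
            rw [Finset.sum_comm]
            refine Finset.sum_congr rfl fun j _ => ?_
            rw [← Finset.sum_mul]
    · rw [Finset.sum_comm (f := fun j i => v i j), Finset.sum_comm (f := fun j i => s i * v i j),
        Finset.sum_mul_sum]
      refine Finset.sum_congr rfl fun i _ => Finset.sum_congr rfl fun l _ => ?_
      rw [← Finset.mul_sum, mul_assoc]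
  · calc ∑ i, ∑ l, s i * ∑ j, t j * (v i j * v l j)
          = ∑ i, ∑ j, (s i * v i j) * (t j * ∑ l, v l j) := by
          refine Finset.sum_congr rfl fun i _ => ?_
          rw [← Finset.mul_sum, Finset.sum_comm, Finset.mul_sum]
          refine Finset.sum_congr rfl fun j _ => ?_
          rw [Finset.mul_sum, Finset.mul_sum, Finset.mul_sum]
          refine Finset.sum_congr rfl fun l _ => ?_
          ring
      _ = ∑ j, t j * ((∑ i, s i * v i j) * (∑ i, v i j)) := by
          rw [Finset.sum_comm]
          refine Finset.sum_congr rfl fun j _ => ?_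
          rw [← Finset.sum_mul]
          ring

theorem sum_H (e T : Fin N → Fin N → F) (s : Fin N → F) (a X Y : F) :
    ∑ i, ∑ l, (a * e i l + (s i + s l - Y) * (X * e i l - 2 * T i l)) =
      (a - Y * X) * (∑ i, ∑ l, e i l) + X * (∑ i, ∑ l, s i * e i l) +
        X * (∑ i, ∑ l, s l * e i l) - 2 * (∑ i, ∑ l, s i * T i l) -
        2 * (∑ i, ∑ l, s l * T i l) + 2 * Y * ∑ i, ∑ l, T i l := by
  simp only [Finset.mul_sum, ← Finset.sum_add_distrib, ← Finset.sum_sub_distrib]
  refine Finset.sum_congr rfl fun i _ => Finset.sum_congr rfl fun l _ => ?_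
  ring

/-- the second derivative of the permanent at the special point, restricted to vectors with zero
row `0`, rows in the kernel of `t` and columns in the kernel of `s` -/
theorem pD2_pt (hN : 3 ≤ N) (hN0 : (N : F) ≠ 0) (t s : Fin N → F) (X Y : F)
    (ht : ∑ j, t j = ((N : F) - 1) * X)
    (hs : ∑ i, s i = ((N : F) - 1) * Y) (g : Fin N → F) (v : Fin N → Fin N → F)
    (h1 : ∀ i, ∑ j, t j * v i j = 0) (h2 : ∀ j, ∑ i, s i * v i j = 0) :
    pD2 (pt t s X Y) (Fin.cons 0 (fun i => Fin.cons (g i) (v i)))
      (Fin.cons 0 (fun i => Fin.cons (g i) (v i))) = (k3 N : F) * qQ t s X Y v := by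
  set w : Fin (N + 1) → Fin (N + 1) → F := Fin.cons 0 (fun i => Fin.cons (g i) (v i)) with hw
  have hw0 : w 0 = 0 := rfl
  have hws : ∀ i : Fin N, w i.succ = Fin.cons (g i) (v i) := fun i => rfl
  set H : Fin N → Fin N → F := fun i l =>
    ((N : F) - 2) * (X * Y / N) * (∑ j, v i j * v l j - (∑ j, v i j) * (∑ j, v l j)) +
        (s i + s l - Y) * (X * (∑ j, v i j * v l j - (∑ j, v i j) * (∑ j, v l j)) -
          2 * ∑ j, t j * (v i j * v l j)) with hH
  have step1 : pD2 (pt t s X Y) w w = ∑ i : Fin N, ∑ l : Fin N, if l = i then 0 else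
      (k3 N : F) * H i l := by
    unfold pD2
    rw [Fin.sum_univ_succ]
    have hz : ∑ l, permMl (Fin (N + 1)) F (Function.update (Function.update (pt t s X Y) 0 (w 0)) l
        (if l = 0 then 0 else w l)) = 0 := by
      refine Finset.sum_eq_zero fun l _ => ?_
      by_cases hl : l = 0
      · rw [if_pos hl, (permMl (Fin (N + 1)) F).map_update_zero]
      · rw [Function.update_comm (Ne.symm hl), hw0, (permMl (Fin (N + 1)) F).map_update_zero]
    rw [hz, zero_add]
    refine Finset.sum_congr rfl fun i _ => ?_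
    rw [Fin.sum_univ_succ]
    have hz2 : (if (0 : Fin (N + 1)) = i.succ then (0 : Fin (N + 1) → F) else w 0) = 0 := by
      rw [hw0, ite_self]
    rw [hz2, (permMl (Fin (N + 1)) F).map_update_zero, zero_add]
    refine Finset.sum_congr rfl fun l _ => ?_
    by_cases hl : l = i
    · subst hl
      rw [if_pos rfl, if_pos rfl, (permMl (Fin (N + 1)) F).map_update_zero]
    · rw [if_neg hl, if_neg (fun h => hl (Fin.succ_injective _ h)), hws, hws, pt_eq,
        update_cons_succ, update_cons_succ,
        perm_row2_hi hN hN0 t s X Y ht hs i l (Ne.symm hl) _ _ _ _ (h1 i) (h1 l)]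
  have step2 : ∑ i : Fin N, ∑ l : Fin N, (if l = i then 0 else (k3 N : F) * H i l) =
      (k3 N : F) * (∑ i, ∑ l, H i l - ∑ i, H i i) := by
    rw [← Finset.sum_sub_distrib, Finset.mul_sum]
    refine Finset.sum_congr rfl fun i _ => ?_
    have : ∀ l, (if l = i then 0 else (k3 N : F) * H i l) =
        (k3 N : F) * H i l - (if l = i then (k3 N : F) * H i i else 0) := by
      intro l
      by_cases hl : l = i
      · subst hl; simp
      · simp [hl]
    rw [Finset.sum_congr rfl (fun l _ => this l), Finset.sum_sub_distrib, ← Finset.mul_sum,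
      Finset.sum_ite_eq' Finset.univ i, if_pos (Finset.mem_univ i)]
    ring
  obtain ⟨b1, b2, b3, b4⟩ := sum_bil (t := t) (s := s) v
  simp only [h2, zero_mul, Finset.sum_const_zero, sub_zero, mul_zero] at b3 b4
  have b5 : ∑ i, ∑ l, s l * (∑ j, v i j * v l j - (∑ j, v i j) * (∑ j, v l j)) = 0 := by
    rw [← b3, Finset.sum_comm]
    refine Finset.sum_congr rfl fun i _ => Finset.sum_congr rfl fun l _ => ?_
    rw [mul_comm (∑ j, v l j), Finset.sum_congr rfl (fun j _ => mul_comm (v l j) (v i j))]
  have b6 : ∑ i, ∑ l, s l * ∑ j, t j * (v i j * v l j) = 0 := by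
    rw [← b4, Finset.sum_comm]
    refine Finset.sum_congr rfl fun i _ => Finset.sum_congr rfl fun l _ => ?_
    rw [Finset.sum_congr rfl (fun j _ => by rw [mul_comm (v l j) (v i j)])]
  have step3 : ∑ i, ∑ l, H i l = 2 * Y * qTh t X (fun j => ∑ i, v i j) := by
    simp only [hH]
    rw [sum_H (fun i l => ∑ j, v i j * v l j - (∑ j, v i j) * (∑ j, v l j))
      (fun i l => ∑ j, t j * (v i j * v l j)) s, b1, b2, b3, b4, b5, b6, qTh]
    field_simp
    ring
  have step4 : ∑ i, H i i = ∑ i, (2 * Y * qTh t X (v i) - 2 * (s i * qPhi t X (v i))) := by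
    refine Finset.sum_congr rfl fun i _ => ?_
    simp only [hH]
    have f1 : ∑ j, v i j * v i j - (∑ j, v i j) * (∑ j, v i j) = qE (v i) := by
      rw [qE, sq]
      simp only [sq]
    have f2 : ∑ j, t j * (v i j * v i j) = qA t (v i) := by
      rw [qA]
      simp only [sq]
    rw [f1, f2, qTh, qPhi]
    field_simp
    ring
  rw [step1, step2, step3, step4, qQ, Finset.sum_sub_distrib, ← Finset.mul_sum, ← Finset.mul_sum]
  ring

end Pool.Agent.Helper73.DC
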