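import Mathlib
import Pool.Agent.Helper73.DC.Form

/-! Linear subspaces through the special point inside the zero set of the permanent. -/

namespace Pool.Agent.Helper73.DC

open Finset Pool.Agent.Helper20.MR Module

variable {F : Type*} [Field F] {N : ℕ}

/-- the linear form `N r_0 + Y ∑ r_j` -/
def phi0 (N : ℕ) (Y : F) : (Fin (N + 1) → F) →ₗ[F] F where
  toFun r := (N : F) * r 0 + Y * ∑ j : Fin N, r j.succ
  map_add' a b := by
    simp only [Pi.add_apply, Finset.sum_add_distrib]
    ring
  map_smul' c a := by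
    simp only [Pi.smul_apply, smul_eq_mul, ← Finset.mul_sum, RingHom.id_apply]
    ring

theorem phi0_apply (Y : F) (r : Fin (N + 1) → F) :
    phi0 N Y r = (N : F) * r 0 + Y * ∑ j : Fin N, r j.succ := rfl

/-- the subspace: row `0` in a hyperplane, the other rows multiples of the rows of the point -/
def Rsp (t s : Fin N → F) (X Y : F) : Submodule F (Fin (N + 1) → Fin (N + 1) → F) :=
  Submodule.map (LinearMap.single F (fun _ : Fin (N + 1) => Fin (N + 1) → F) 0)
      (LinearMap.ker (phi0 N Y)) ⊔
    Submodule.span F (Set.range fun i : Fin N =>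
      (Pi.single i.succ (pt t s X Y i.succ) : Fin (N + 1) → Fin (N + 1) → F))

theorem finrank_Rsp (hN0 : (N : F) ≠ 0) (t s : Fin N → F) (X Y : F) :
    finrank F (Rsp t s X Y) ≤ 2 * N := by
  have h1 : finrank F (LinearMap.ker (phi0 (F := F) N Y)) ≤ N := by
    have h2 := LinearMap.finrank_range_add_finrank_ker (phi0 (F := F) N Y)
    rw [Module.finrank_fin_fun] at h2
    have h3 : 0 < finrank F (LinearMap.range (phi0 (F := F) N Y)) := by
      rw [Module.finrank_pos_iff_exists_ne_zero]
      refine ⟨⟨(N : F), ⟨Pi.single 0 1, ?_⟩⟩, ?_⟩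
      · rw [phi0_apply]
        have : ∀ j : Fin N, (Pi.single 0 1 : Fin (N + 1) → F) j.succ = 0 := fun j => by
          rw [Pi.single_eq_of_ne (Fin.succ_ne_zero j)]
        simp
      · intro h
        exact hN0 (congrArg Subtype.val h)
    omega
  have h4 := Submodule.finrank_add_le_finrank_add_finrank
    (Submodule.map (LinearMap.single F (fun _ : Fin (N + 1) => Fin (N + 1) → F) 0)
      (LinearMap.ker (phi0 N Y)))
    (Submodule.span F (Set.range fun i : Fin N =>
      (Pi.single i.succ (pt t s X Y i.succ) : Fin (N + 1) → Fin (N + 1) → F)))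
  have h5 := Submodule.finrank_map_le
    (LinearMap.single F (fun _ : Fin (N + 1) => Fin (N + 1) → F) 0)
    (LinearMap.ker (phi0 (F := F) N Y))
  have h6 := finrank_range_le_card (R := F) (fun i : Fin N =>
      (Pi.single i.succ (pt t s X Y i.succ) : Fin (N + 1) → Fin (N + 1) → F))
  rw [Fintype.card_fin] at h6
  rw [Set.finrank] at h6
  rw [Rsp]
  omega

theorem finrank_le_of_good' [Infinite F] (hF : (((N.factorial : ℕ)) : F) ≠ 0) (hN : 3 ≤ N)
    (t s : Fin N → F) (X Y : F) (h : Good F N t s X Y)
    (W : Submodule F (Fin (N + 1) → Fin (N + 1) → F))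
    (hW : ∀ w ∈ W, permMl (Fin (N + 1)) F (pt t s X Y + w) = 0) :
    Module.finrank F W ≤ 2 * N := by
  have hN0 : (N : F) ≠ 0 := N_ne' hF hN
  obtain ⟨hX, hY, ht, hs, hani⟩ := h
  set p := pt t s X Y with hp
  -- derivatives vanish
  have hd : ∀ w ∈ W, pD1 p w = 0 ∧ pD2 p w w = 0 := fun w hw =>
    pD_eq_zero p w fun c => hW _ (W.smul_mem c hw)
  have hpol : ∀ w ∈ W, ∀ w' ∈ W, pB p w w' = 0 := by
    intro w hw w' hw'
    rw [pB_apply]
    have h1 := (hd _ (W.add_mem hw hw')).2
    rw [pD2_add_left, pD2_add_right, pD2_add_right, (hd w hw).2, (hd w' hw').2,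
      pD2_comm p w' w] at h1
    have h2 : (2 : F) * pD2 p w w' = 0 := by linear_combination h1
    rcases mul_eq_zero.mp h2 with h3 | h3
    · exact absurd h3 (two_ne' hF hN)
    · exact h3
  by_contra hcon
  push Not at hcon
  obtain ⟨w, hwW, hwR, hB⟩ := exists_mem_notMem (pB p) W (Rsp t s X Y) hpol
    (lt_of_le_of_lt (finrank_Rsp hN0 t s X Y) hcon)
  simp only [pB_apply] at hB
  apply hwR
  -- the point is a zero
  have hphi : phi0 N Y (hi t X Y) = 0 := by
    rw [phi0_apply]
    simp only [hi, Fin.cons_zero, Fin.cons_succ]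
    rw [sum_y t X ht]
    field_simp
    ring
  have hp0 : permMl (Fin (N + 1)) F p = 0 := by
    rw [hp, pt_eq, perm_row0 hN s Y hs, ← phi0_apply, hphi, mul_zero]
  have hmem1 : ∀ i : Fin N, (Pi.single i.succ (p i.succ) : Fin (N + 1) → Fin (N + 1) → F) ∈
      Rsp t s X Y := fun i =>
    Submodule.mem_sup_right (Submodule.subset_span ⟨i, rfl⟩)
  have hmem2 : ∀ z, phi0 N Y z = 0 → (Pi.single 0 z : Fin (N + 1) → Fin (N + 1) → F) ∈
      Rsp t s X Y := fun z hz =>
    Submodule.mem_sup_left ⟨z, hz, rfl⟩
  -- one row replaced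
  have hone : ∀ i : Fin N, permMl (Fin (N + 1)) F (Function.update p i.succ (w i.succ)) = 0 := by
    intro i
    have h1 := hB _ (hmem1 i)
    rw [pD2_single_self, (hd w hwW).1, zero_sub, neg_eq_zero] at h1
    exact h1
  have hrow0 : phi0 N Y (w 0) = 0 := by
    have h1 := (hd w hwW).1
    rw [pD1, Fin.sum_univ_succ, Finset.sum_eq_zero (fun i _ => hone i), add_zero, hp, pt_eq,
      update_cons_zero, perm_row0 hN s Y hs] at h1
    rw [phi0_apply]
    exact (mul_eq_zero.mp h1).resolve_left (c1_ne' hF hN)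
  have htwo : ∀ z, phi0 N Y z = 0 → ∑ i : Fin N, permMl (Fin (N + 1)) F
      (Fin.cons z (Function.update (lo s Y) i (w i.succ))) = 0 := by
    intro z hz
    have h1 := hB _ (hmem2 z hz)
    rw [pD2_single, Fin.sum_univ_succ, if_pos rfl, zero_add] at h1
    rw [← h1]
    refine Finset.sum_congr rfl fun i _ => ?_
    rw [if_neg (Fin.succ_ne_zero i), hp, pt_eq, update_cons_succ, update_cons_zero]
  -- subtract an element of the subspace
  set a : Fin N → F := fun i => (∑ j : Fin N, t j * w i.succ j.succ) / (((N : F) - 1) * X) with ha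
  have hXN : ((N : F) - 1) * X ≠ 0 := mul_ne_zero (N1_ne' hF hN) hX
  set g : Fin N → F := fun i => w i.succ 0 - a i * (Y - s i) with hg
  set v : Fin N → Fin N → F := fun i j => w i.succ j.succ - a i with hv
  set r : Fin (N + 1) → Fin (N + 1) → F := Fin.cons (w 0) (fun i => a i • lo s Y i) with hr
  set w2 : Fin (N + 1) → Fin (N + 1) → F := Fin.cons 0 (fun i => Fin.cons (g i) (v i)) with hw2
  have hsum : w = w2 + r := by
    funext i
    refine Fin.cases ?_ (fun i => ?_) i
    · simp [hw2, hr]
    · funext j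
      refine Fin.cases ?_ (fun j => ?_) j
      · simp [hw2, hr, hg, lo]
      · simp [hw2, hr, hv, lo]
  have hrR : r ∈ Rsp t s X Y := by
    have : r = (Pi.single 0 (w 0) : Fin (N + 1) → Fin (N + 1) → F) +
        ∑ i : Fin N, a i • (Pi.single i.succ (p i.succ) : Fin (N + 1) → Fin (N + 1) → F) := by
      funext i
      rw [Pi.add_apply, Finset.sum_apply]
      refine Fin.cases ?_ (fun i => ?_) i
      · have : ∀ c : Fin N, (a c • Pi.single c.succ (p c.succ) :
            Fin (N + 1) → Fin (N + 1) → F) 0 = 0 := by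
          intro c
          rw [Pi.smul_apply, Pi.single_eq_of_ne (Fin.succ_ne_zero c).symm, smul_zero]
        rw [Finset.sum_eq_zero (fun c _ => this c), add_zero, Pi.single_eq_same]
        rfl
      · rw [Pi.single_eq_of_ne (Fin.succ_ne_zero i), zero_add, Finset.sum_eq_single i]
        · rw [Pi.smul_apply, Pi.single_eq_same]
          rfl
        · intro c _ hc
          rw [Pi.smul_apply, Pi.single_eq_of_ne, smul_zero]
          exact fun h => hc (Fin.succ_injective _ h).symm
        · intro h
          exact absurd (Finset.mem_univ _) h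
    rw [this]
    exact Submodule.add_mem _ (hmem2 _ hrow0)
      (Submodule.sum_mem _ fun i _ => Submodule.smul_mem _ _ (hmem1 i))
  -- rows of v are in the kernel of t
  have hv1 : ∀ i, ∑ j, t j * v i j = 0 := by
    intro i
    simp only [hv, mul_sub, Finset.sum_sub_distrib, ← Finset.sum_mul, ht]
    have h1 : a i * (((N : F) - 1) * X) = ∑ j : Fin N, t j * w i.succ j.succ :=
      div_mul_cancel₀ _ hXN
    linear_combination -h1
  have hws : ∀ i : Fin N, w i.succ = Fin.cons (g i) (v i) + a i • lo s Y i := by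
    intro i
    rw [hsum]
    rfl
  -- one row replaced, for w2
  have hone' : ∀ i : Fin N, permMl (Fin (N + 1)) F
      (Fin.cons (hi t X Y) (Function.update (lo s Y) i (Fin.cons (g i) (v i)))) = 0 := by
    intro i
    have h1 := hone i
    rw [hws i, (permMl (Fin (N + 1)) F).map_update_add, (permMl (Fin (N + 1)) F).map_update_smul,
      hp, pt_eq, update_cons_succ, update_cons_succ, Function.update_eq_self, ← pt_eq, ← hp, hp0,
      smul_zero, add_zero] at h1
    exact h1
  have hg1 : ∀ i, g i = Y * (∑ j, v i j) / (N : F) := by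
    intro i
    have h1 := hone' i
    rw [perm_row1 hN s Y hs] at h1
    simp only [hi, Fin.cons_zero, Fin.cons_succ] at h1
    have e1 : ∑ j, (X - t j) = X := sum_y t X ht
    have e2 : ∑ j, v i j * (X - t j) = X * ∑ j, v i j := by
      simp only [mul_sub, Finset.sum_sub_distrib, ← Finset.sum_mul]
      rw [Finset.sum_congr rfl (fun j _ => mul_comm (v i j) (t j)), hv1 i]
      ring
    rw [e1, e2] at h1
    have h2 : c1 F N * X * (g i - Y * (∑ j, v i j) / (N : F)) = 0 := by
      rw [← h1]
      field_simp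
      ring
    have h3 := (mul_eq_zero.mp h2).resolve_left (mul_ne_zero (c1_ne' hF hN) hX)
    linear_combination h3
  have htwo' : ∀ z, phi0 N Y z = 0 → ∑ i : Fin N, permMl (Fin (N + 1)) F
      (Fin.cons z (Function.update (lo s Y) i (Fin.cons (g i) (v i)))) = 0 := by
    intro z hz
    rw [← htwo z hz]
    refine Finset.sum_congr rfl fun i _ => ?_
    have hzz : permMl (Fin (N + 1)) F (Fin.cons z (lo s Y)) = 0 := by
      rw [perm_row0 hN s Y hs, ← phi0_apply, hz, mul_zero]
    rw [hws i, ← update_cons_succ, ← update_cons_succ, (permMl (Fin (N + 1)) F).map_update_add,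
      (permMl (Fin (N + 1)) F).map_update_smul, update_cons_succ, update_cons_succ,
      Function.update_eq_self, hzz, smul_zero, add_zero]
  have hcol : ∀ j, ∑ i, s i * v i j = ∑ i, s i * ∑ k, v i k := by
    intro j
    have hz : phi0 N Y (Fin.cons Y (Pi.single j (-(N : F)))) = 0 := by
      rw [phi0_apply]
      simp only [Fin.cons_zero, Fin.cons_succ, Finset.sum_pi_single', Finset.mem_univ, if_true]
      ring
    have h1 := htwo' _ hz
    have h2 : ∀ i : Fin N, permMl (Fin (N + 1)) F (Fin.cons (Fin.cons Y (Pi.single j (-(N : F))))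
        (Function.update (lo s Y) i (Fin.cons (g i) (v i)))) =
        -(c2 F N * (N : F)) * (s i * ∑ k, v i k - s i * v i j) := by
      intro i
      rw [perm_row1 hN s Y hs]
      simp only [Fin.cons_zero, Fin.cons_succ, Finset.sum_pi_single', Finset.mem_univ, if_true]
      have e1 : ∑ k, v i k * (Pi.single j (-(N : F)) : Fin N → F) k = v i j * -(N : F) := by
        rw [Finset.sum_eq_single j]
        · rw [Pi.single_eq_same]
        · intro k _ hk
          rw [Pi.single_eq_of_ne hk, mul_zero]
        · intro h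
          exact absurd (Finset.mem_univ _) h
      rw [e1, hg1 i]
      field_simp
      ring
    rw [Finset.sum_congr rfl (fun i _ => h2 i), ← Finset.mul_sum, Finset.sum_sub_distrib] at h1
    have h3 := (mul_eq_zero.mp h1).resolve_left
      (neg_ne_zero.mpr (mul_ne_zero (c2_ne' hF hN) hN0))
    linear_combination -h3
  have htot : ∑ i, s i * ∑ k, v i k = 0 := by
    have h1 : ∑ j : Fin N, ∑ i, s i * v i j = ∑ i, s i * ∑ k, v i k := by
      rw [Finset.sum_comm]
      simp only [Finset.mul_sum]
    rw [Finset.sum_congr rfl (fun j _ => hcol j), Finset.sum_const, Finset.card_univ,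
      Fintype.card_fin, nsmul_eq_mul] at h1
    have h2 : ((N : F) - 1) * ∑ i, s i * ∑ k, v i k = 0 := by linear_combination h1
    exact (mul_eq_zero.mp h2).resolve_left (N1_ne' hF hN)
  have hv2 : ∀ j, ∑ i, s i * v i j = 0 := fun j => (hcol j).trans htot
  -- second order
  have hrr : pD2 p r r = 0 := by
    refine (pD_eq_zero p r fun c => ?_).2
    have h1 : p + c • r = fun k => (Fin.cons 1 (fun i => 1 + c * a i) : Fin (N + 1) → F) k •
        (Fin.cons (hi t X Y + c • w 0) (lo s Y) : Fin (N + 1) → Fin (N + 1) → F) k := by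
      funext k
      refine Fin.cases ?_ (fun i => ?_) k
      · rw [Pi.add_apply, Pi.smul_apply, hr, hp, pt_eq, Fin.cons_zero, Fin.cons_zero,
          Fin.cons_zero, Fin.cons_zero, one_smul]
      · rw [Pi.add_apply, Pi.smul_apply, hr, hp, pt_eq, Fin.cons_succ, Fin.cons_succ,
          Fin.cons_succ, Fin.cons_succ, add_smul, one_smul, mul_smul]
    rw [h1, (permMl (Fin (N + 1)) F).map_smul_univ, perm_row0 hN s Y hs, ← phi0_apply,
      map_add, map_smul, hphi, hrow0]
    simp
  have hww : pD2 p w2 w2 = 0 := by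
    have h1 : w2 = w + (-1 : F) • r := by
      rw [hsum, neg_one_smul]
      abel
    rw [h1, pD2_add_left, pD2_add_right, pD2_add_right, pD2_smul_left, pD2_smul_left,
      pD2_smul_right, pD2_smul_right, (hd w hwW).2, hrr, pD2_comm p r w, hB r hrR]
    ring
  rw [hw2, hp, pD2_pt hN hN0 t s X Y ht hs g v hv1 hv2] at hww
  have hQ := (mul_eq_zero.mp hww).resolve_left (k3_ne' hF hN)
  have hv0 := hani v hv1 hv2 hQ
  have hg0 : ∀ i, g i = 0 := by
    intro i
    rw [hg1 i, hv0]
    simp
  have hw20 : w2 = 0 := by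
    funext i
    refine Fin.cases ?_ (fun i => ?_) i
    · rfl
    · funext j
      refine Fin.cases ?_ (fun j => ?_) j
      · exact hg0 i
      · exact congrFun (congrFun hv0 i) j
  rw [hsum, hw20, zero_add]
  exact hrR

theorem finrank_le_of_good [CharZero F] (hN : 3 ≤ N)
    (t s : Fin N → F) (X Y : F) (h : Good F N t s X Y)
    (W : Submodule F (Fin (N + 1) → Fin (N + 1) → F))
    (hW : ∀ w ∈ W, permMl (Fin (N + 1)) F (pt t s X Y + w) = 0) :
    Module.finrank F W ≤ 2 * N :=
  finrank_le_of_good' (Nat.cast_ne_zero.mpr (Nat.factorial_ne_zero N)) hN t s X Y h W hW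

end Pool.Agent.Helper73.DC
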