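import Mathlib

/-! Lifting a simple zero of an irreducible polynomial, of degree one in a variable, to a zero over
the power series at which another polynomial does not vanish. -/

namespace Pool.Agent.Helper73.DC

open MvPolynomial

section division

variable {K : Type*} [Field K] {S : Type*} [DecidableEq S]

/-- pseudo-division by a polynomial `f = b X_a + c` -/
theorem exists_pseudo (a : S) (b c : MvPolynomial S K) (hb : a ∉ b.vars) (hc : a ∉ c.vars)
    (h : MvPolynomial S K) :
    ∃ (d : ℕ) (q r : MvPolynomial S K), b ^ d * h = q * (b * X a + c) + r ∧ a ∉ r.vars := by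
  have hmul : ∀ p q : MvPolynomial S K, a ∉ p.vars → a ∉ q.vars → a ∉ (p * q).vars := by
    intro p q hp hq hpq
    rcases Finset.mem_union.mp (vars_mul p q hpq) with h1 | h1
    · exact hp h1
    · exact hq h1
  have hadd : ∀ p q : MvPolynomial S K, a ∉ p.vars → a ∉ q.vars → a ∉ (p + q).vars := by
    intro p q hp hq hpq
    rcases Finset.mem_union.mp (vars_add_subset p q hpq) with h1 | h1
    · exact hp h1
    · exact hq h1
  have hpow : ∀ (p : MvPolynomial S K) (n : ℕ), a ∉ p.vars → a ∉ (p ^ n).vars := by
    intro p n hp hpn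
    exact hp (vars_pow p n hpn)
  induction h using MvPolynomial.induction_on with
  | C x => exact ⟨0, 0, C x, by ring, by simp⟩
  | add p q hp hq =>
    obtain ⟨d₁, q₁, r₁, h₁, v₁⟩ := hp
    obtain ⟨d₂, q₂, r₂, h₂, v₂⟩ := hq
    refine ⟨d₁ + d₂, b ^ d₂ * q₁ + b ^ d₁ * q₂, b ^ d₂ * r₁ + b ^ d₁ * r₂, ?_,
      hadd _ _ (hmul _ _ (hpow _ _ hb) v₁) (hmul _ _ (hpow _ _ hb) v₂)⟩
    linear_combination b ^ d₂ * h₁ + b ^ d₁ * h₂
  | mul_X p s hp =>
    obtain ⟨d, q, r, h₁, v₁⟩ := hp
    by_cases hs : s = a
    · subst hs
      refine ⟨d + 1, q * (b * X s + c) + r - c * q, -(r * c), ?_, ?_⟩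
      · linear_combination (b * X s) * h₁
      · rw [vars_neg]
        exact hmul _ _ v₁ hc
    · refine ⟨d, q * X s, r * X s, ?_, hmul _ _ v₁ ?_⟩
      · linear_combination X s * h₁
      · rw [vars_X]
        simpa using Ne.symm hs

theorem notMem_vars_pderiv (a : S) (f : MvPolynomial S K) (hdeg : degreeOf a f ≤ 1) :
    a ∉ (pderiv a f).vars := by
  intro h
  obtain ⟨m, hm, hma⟩ := (mem_vars_iff_mem_support a).mp h
  have h1 : coeff (m + Finsupp.single a 1) f ≠ 0 := by
    intro h0
    rw [mem_support_iff, coeff_pderiv, h0, zero_mul] at hm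
    exact hm rfl
  have h2 := monomial_le_degreeOf a (mem_support_iff.mpr h1)
  rw [Finsupp.add_apply, Finsupp.single_eq_same] at h2
  rw [Finsupp.mem_support_iff] at hma
  omega

theorem notMem_vars_sub (a : S) (f : MvPolynomial S K) (hdeg : degreeOf a f ≤ 1) :
    a ∉ (f - pderiv a f * X a).vars := by
  intro h
  obtain ⟨m, hm, hma⟩ := (mem_vars_iff_mem_support a).mp h
  rw [mem_support_iff, coeff_sub, coeff_mul_X', if_pos hma, coeff_pderiv] at hm
  rw [Finsupp.mem_support_iff] at hma
  have h1 : m - Finsupp.single a 1 + Finsupp.single a 1 = m := by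
    refine tsub_add_cancel_of_le ?_
    rw [Finsupp.single_le_iff]
    omega
  rw [h1] at hm
  have h3 : coeff m f ≠ 0 := by
    intro h0
    rw [h0] at hm
    simp at hm
  have h2 := monomial_le_degreeOf a (mem_support_iff.mpr h3)
  have h4 : m a = 1 := by omega
  apply hm
  rw [Finsupp.tsub_apply, Finsupp.single_eq_same, h4]
  simp

theorem aeval_update_of_notMem {A : Type*} [CommRing A] [Algebra K A] (a : S)
    (p : MvPolynomial S K) (hp : a ∉ p.vars) (z : S → A) (t : A) :
    aeval (Function.update z a t) p = aeval z p := by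
  refine eval₂Hom_congr' rfl ?_ rfl
  intro i hi _
  rw [Function.update_of_ne]
  rintro rfl
  exact hp hi

end division

section lift

variable {K F : Type*} [Field K] [Field F] [Algebra K F] {S : Type*} [Fintype S] [DecidableEq S]

theorem constantCoeff_aeval (z : S → PowerSeries F) (p : MvPolynomial S K) :
    PowerSeries.constantCoeff (aeval z p) = aeval (fun s => PowerSeries.constantCoeff (z s)) p := by
  rw [aeval_def, aeval_def, eval₂_comp_left]
  congr 1

theorem exists_lift [Infinite F] (a : S) (f h : MvPolynomial S K) (hf : Irreducible f)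
    (hdeg : degreeOf a f ≤ 1) (hh : ¬ f ∣ h) (x : S → F) (hx : aeval x f = 0)
    (ha : aeval x (pderiv a f) ≠ 0) :
    ∃ z : S → PowerSeries F, (∀ s, PowerSeries.constantCoeff (z s) = x s) ∧
      aeval z f = 0 ∧ aeval z h ≠ 0 := by
  set b := pderiv a f with hb
  set c := f - b * X a with hc
  have hfbc : f = b * X a + c := by rw [hc]; ring
  have hbv := notMem_vars_pderiv a f hdeg
  have hcv := notMem_vars_sub a f hdeg
  obtain ⟨d, q, r, hdqr, hrv⟩ := exists_pseudo a b c hbv hcv h
  rw [← hfbc] at hdqr
  have hb0 : b ≠ 0 := by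
    intro h0
    rw [h0, map_zero] at ha
    exact ha rfl
  have hfb : ¬ f ∣ b := by
    rintro ⟨e, he⟩
    have he0 : e ≠ 0 := by
      rintro rfl
      exact hb0 (by rw [he, mul_zero])
    have h1 : degreeOf a b = 0 := by
      by_contra h2
      exact hbv (mem_vars_iff_degreeOf_ne_zero.mpr h2)
    rw [he, degreeOf_mul_eq hf.ne_zero he0] at h1
    have h2 : a ∉ f.vars := by
      intro h3
      have := mem_vars_iff_degreeOf_ne_zero.mp h3
      omega
    exact hb0 (pderiv_eq_zero_of_notMem_vars h2)
  have hr0 : r ≠ 0 := by
    rintro rfl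
    rw [add_zero] at hdqr
    have h1 : f ∣ b ^ d * h := ⟨q, by rw [hdqr]; ring⟩
    rcases hf.prime.dvd_or_dvd h1 with h2 | h2
    · exact hfb (hf.prime.dvd_of_dvd_pow h2)
    · exact hh h2
  -- a point over `F` where `r` does not vanish
  obtain ⟨y, hy⟩ : ∃ y : S → F, aeval y r ≠ 0 := by
    by_contra hcon
    push Not at hcon
    apply hr0
    have h1 : map (algebraMap K F) r = 0 := by
      refine MvPolynomial.funext fun y => ?_
      rw [eval_map, map_zero]
      exact hcon y
    exact (map_eq_zero_iff _ (map_injective _ (algebraMap K F).injective)).mp h1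
  -- the line through `x` and `y`
  set z : S → PowerSeries F := fun s => PowerSeries.C (x s) +
    PowerSeries.X * PowerSeries.C (y s - x s) with hz
  have hzx : ∀ s, PowerSeries.constantCoeff (z s) = x s := by
    intro s
    simp [hz]
  have hrz : aeval z r ≠ 0 := by
    set z₀ : S → Polynomial F := fun s => Polynomial.C (x s) +
      Polynomial.X * Polynomial.C (y s - x s) with hz₀
    have h1 : aeval z r = Polynomial.coeToPowerSeries.ringHom (aeval z₀ r) := by
      rw [aeval_def, aeval_def, eval₂_comp_left]
      congr 1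
      · refine RingHom.ext fun k => ?_
        rw [PowerSeries.algebraMap_apply]
        simp
      · funext s
        simp [hz, hz₀]
    have h2 : (aeval z₀ r).eval 1 = aeval y r := by
      rw [← Polynomial.coe_evalRingHom, aeval_def, aeval_def, eval₂_comp_left]
      congr 1
      · ext k
        simp
      · funext s
        simp [hz₀]
    intro h0
    rw [h1] at h0
    have h3 : aeval z₀ r = 0 := by
      have h4 : ((aeval z₀ r : Polynomial F) : PowerSeries F) = 0 := h0
      exact Polynomial.coe_eq_zero_iff.mp h4
    rw [h3, Polynomial.eval_zero] at h2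
    exact hy h2.symm
  have hbz : PowerSeries.constantCoeff (aeval z b) ≠ 0 := by
    rw [constantCoeff_aeval]
    simp only [hzx]
    exact ha
  have hunit : IsUnit (aeval z b) := by
    rw [PowerSeries.isUnit_iff_constantCoeff]
    exact isUnit_iff_ne_zero.mpr hbz
  obtain ⟨u, hu⟩ := hunit.exists_left_inv
  set t : PowerSeries F := - u * aeval z c with ht
  refine ⟨Function.update z a t, ?_, ?_, ?_⟩
  · intro s
    by_cases hs : s = a
    · subst hs
      rw [Function.update_self, ht, map_mul, map_neg]
      have h1 : aeval x b * x s + aeval x c = 0 := by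
        rw [← hx]
        conv_rhs => rw [hfbc]
        rw [map_add, map_mul, aeval_X]
      have h2 : PowerSeries.constantCoeff u * aeval x b = 1 := by
        have := congrArg PowerSeries.constantCoeff hu
        rw [map_mul, constantCoeff_aeval, map_one] at this
        simp only [hzx] at this
        exact this
      rw [constantCoeff_aeval]
      simp only [hzx]
      linear_combination (-PowerSeries.constantCoeff u) * h1 + x s * h2
    · rw [Function.update_of_ne hs, hzx]
  · rw [hfbc, map_add, map_mul, aeval_X, Function.update_self, aeval_update_of_notMem a b hbv,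
      aeval_update_of_notMem a c hcv, ht]
    linear_combination (-aeval z c) * hu
  · intro h0
    have h1 := congrArg (aeval (Function.update z a t)) hdqr
    have h2 : aeval (Function.update z a t) f = 0 := by
      rw [hfbc, map_add, map_mul, aeval_X, Function.update_self, aeval_update_of_notMem a b hbv,
        aeval_update_of_notMem a c hcv, ht]
      linear_combination (-aeval z c) * hu
    rw [map_mul, h0, mul_zero, map_add, map_mul, h2, mul_zero, zero_add,
      aeval_update_of_notMem a r hrv] at h1
    exact hrz h1.symm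

end lift

end Pool.Agent.Helper73.DC
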