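import Mathlib
import Pool.Agent.Helper73.DC.Order2
import Pool.Agent.Helper73.DC.Perturb
import Pool.Agent.Helper73.DC.Irr
import Pool.Agent.Helper73.DC.Aniso
import Pool.Agent.Helper14.DC.Hensel
import Pool.Agent.Helper14.DC.Reduce
import Pool.Agent.Helper59.DC.Corank

/-! Zeros of the permanent, over an extension field, which lie on no big linear space inside the
zero set, and outside a given hypersurface; lower bounds for determinantal representations. -/

universe u

namespace Pool.Agent.Helper73.DC

open MvPolynomial Pool.Agent.Helper20.MR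

/-- a good zero of the permanent over an extension field -/
theorem exists_point (K : Type u) [Field K] (N : ℕ) (hN : 3 ≤ N)
    (hK : ((N.factorial : ℕ) : K) ≠ 0)
    (h : MvPolynomial (Fin (N + 1) × Fin (N + 1)) K) (hh : ¬ permPoly (Fin (N + 1)) K ∣ h) :
    ∃ (L : Type u) (_ : Field L) (_ : Algebra K L) (_ : Infinite L)
      (x : Fin (N + 1) × Fin (N + 1) → L),
      aeval x (permPoly (Fin (N + 1)) K) = 0 ∧
      aeval x (pderiv (0, 0) (permPoly (Fin (N + 1)) K)) ≠ 0 ∧
      aeval x h ≠ 0 ∧ ∀ W : Submodule L (Fin (N + 1) × Fin (N + 1) → L),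
        (∀ w ∈ W, aeval (x + w) (permPoly (Fin (N + 1)) K) = 0) →
          Module.finrank L W ≤ 2 * N := by
  classical
  obtain ⟨F, _, _, _, t, s, X, Y, hgood⟩ := DCA.exists_good K N hN hK
  have hF : ((N.factorial : ℕ) : F) ≠ 0 := by
    intro h0
    apply hK
    apply (algebraMap K F).injective
    rw [map_natCast, h0, map_zero]
  have hN0 : (N : F) ≠ 0 := N_ne' hF hN
  set x₀ : Fin (N + 1) × Fin (N + 1) → F := fun p => pt t s X Y p.1 p.2 with hx₀
  have hx₀c : (fun i a => x₀ (i, a)) = pt t s X Y := rfl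
  have hzero : aeval x₀ (permPoly (Fin (N + 1)) K) = 0 := by
    rw [aeval_permPoly, hx₀c, pt_eq, perm_row0 hN s Y hgood.hs]
    simp only [hi, Fin.cons_zero, Fin.cons_succ]
    rw [sum_y t X hgood.ht]
    field_simp
    ring
  have hder : aeval x₀ (pderiv (0, 0) (permPoly (Fin (N + 1)) K)) ≠ 0 := by
    rw [aeval_pderiv_permPoly, hx₀c, pt_eq, update_cons_zero, perm_row0 hN s Y hgood.hs]
    have h1 : ∀ j : Fin N, (Pi.single 0 1 : Fin (N + 1) → F) j.succ = 0 := fun j => by
      rw [Pi.single_eq_of_ne (Fin.succ_ne_zero j)]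
    simp only [h1, Finset.sum_const_zero, mul_zero, add_zero, Pi.single_eq_same, mul_one]
    exact mul_ne_zero (c1_ne' hF hN) hN0
  obtain ⟨z, hz, hzf, hzh⟩ := exists_lift (0, 0) (permPoly (Fin (N + 1)) K) h
    irreducible_permPoly (degreeOf_permPoly_le _) hh x₀ hzero hder
  set L := FractionRing (PowerSeries F) with hL
  have hinj : Function.Injective (algebraMap (PowerSeries F) L) :=
    IsFractionRing.injective (PowerSeries F) L
  have hev : ∀ p : MvPolynomial (Fin (N + 1) × Fin (N + 1)) K,
      aeval (fun s => algebraMap (PowerSeries F) L (z s)) p =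
        algebraMap (PowerSeries F) L (aeval z p) := by
    intro p
    rw [aeval_def, aeval_def, eval₂_comp_left]
    congr 1
  have : Infinite (PowerSeries F) :=
    Infinite.of_injective (PowerSeries.C (R := F)) PowerSeries.C_injective
  refine ⟨L, inferInstance, inferInstance, Infinite.of_injective _ hinj,
    fun s => algebraMap (PowerSeries F) L (z s), ?_, ?_, ?_, ?_⟩
  · rw [hev, hzf, map_zero]
  · rw [hev]
    intro h0
    have h1 : aeval z (pderiv (0, 0) (permPoly (Fin (N + 1)) K)) = 0 := by
      apply hinj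
      rw [h0, map_zero]
    apply hder
    have h2 := congrArg PowerSeries.constantCoeff h1
    rw [constantCoeff_aeval, map_zero] at h2
    simp only [hz] at h2
    exact h2
  · rw [hev]
    intro h0
    apply hzh
    apply hinj
    rw [h0, map_zero]
  · intro W hW
    obtain ⟨W₀, hle, hW₀⟩ := Helper14.DC.exists_reduction (permPoly (Fin (N + 1)) K) z W hW
    refine hle.trans ?_
    let e : (Fin (N + 1) × Fin (N + 1) → F) ≃ₗ[F] (Fin (N + 1) → Fin (N + 1) → F) :=
      LinearEquiv.curry F F (Fin (N + 1)) (Fin (N + 1))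
    have h1 := LinearEquiv.finrank_map_eq e W₀
    rw [← h1]
    refine finrank_le_of_good' hF hN t s X Y hgood _ ?_
    rintro _ ⟨w, hw, rfl⟩
    have h2 := hW₀ w hw
    rw [aeval_permPoly] at h2
    rw [← h2]
    congr 1
    funext i a
    simp only [hz]
    rfl

section general

variable {K L : Type*} [Field K] [Field L] [Algebra K L] {S : Type*}

/-- the restriction of a polynomial to a line -/
noncomputable def lineP (x w : S → L) (q : MvPolynomial S K) : Polynomial L :=
  aeval (fun s => Polynomial.C (x s) + Polynomial.X * Polynomial.C (w s)) q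

theorem eval_lineP (x w : S → L) (q : MvPolynomial S K) (c : L) :
    (lineP x w q).eval c = aeval (x + c • w) q := by
  rw [lineP, ← Polynomial.coe_evalRingHom, aeval_def, aeval_def, eval₂_comp_left]
  congr 1
  · ext k
    simp
  · funext s
    simp only [Polynomial.coe_evalRingHom, Function.comp_apply, Polynomial.eval_add,
      Polynomial.eval_mul, Polynomial.eval_C, Polynomial.eval_X, Pi.add_apply, Pi.smul_apply,
      smul_eq_mul]

theorem aeval_eq_zero_of_mul [Infinite L] (f h : MvPolynomial S K) (k : ℕ) (x w : S → L)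
    (hx : aeval x h ≠ 0) (H : ∀ c : L, aeval (x + c • w) (f ^ (k + 1) * h) = 0) :
    aeval (x + w) f = 0 := by
  have h1 : lineP x w f ^ (k + 1) * lineP x w h = 0 := by
    refine Polynomial.funext fun c => ?_
    rw [Polynomial.eval_mul, Polynomial.eval_pow, eval_lineP, eval_lineP, Polynomial.eval_zero,
      ← H c, map_mul, map_pow]
  have h2 : lineP x w h ≠ 0 := by
    intro h0
    apply hx
    have := eval_lineP x w h 0
    rw [h0, Polynomial.eval_zero, zero_smul, add_zero] at this
    exact this.symm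
  have h3 : lineP x w f = 0 := by
    rcases mul_eq_zero.mp h1 with h4 | h4
    · exact pow_eq_zero_iff (Nat.succ_ne_zero k) |>.mp h4
    · exact absurd h4 h2
  have h4 := eval_lineP x w f 1
  rw [h3, Polynomial.eval_zero, one_smul] at h4
  exact h4.symm

/-- the value of the matrix of affine forms at a point -/
def valMat {m : ℕ} [Fintype S] (A₀ : Matrix (Fin m) (Fin m) K)
    (A : S → Matrix (Fin m) (Fin m) K) (x : S → L) : Matrix (Fin m) (Fin m) L :=
  A₀.map (algebraMap K L) + ∑ s, x s • (A s).map (algebraMap K L)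

theorem aeval_det_affMat {m : ℕ} [Fintype S] (A₀ : Matrix (Fin m) (Fin m) K)
    (A : S → Matrix (Fin m) (Fin m) K) (x : S → L) :
    aeval x (affMat A₀ A).det = (valMat A₀ A x).det := by
  rw [AlgHom.map_det]
  congr 1
  ext i j
  simp [valMat, affMat, Matrix.sum_apply, mul_comm]

theorem valMat_add_smul {m : ℕ} [Fintype S] (A₀ : Matrix (Fin m) (Fin m) K)
    (A : S → Matrix (Fin m) (Fin m) K) (x w : S → L) (c : L) :
    valMat A₀ A (x + c • w) = valMat A₀ A x + c • ∑ s, w s • (A s).map (algebraMap K L) := by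
  rw [valMat, valMat, add_assoc, Finset.smul_sum, ← Finset.sum_add_distrib]
  congr 1
  refine Finset.sum_congr rfl fun s _ => ?_
  rw [Pi.add_apply, add_smul, Pi.smul_apply, smul_eq_mul, mul_smul]

/-- the directions in which a vector stays in the kernel -/
noncomputable def kerSp {m : ℕ} [Fintype S] (A : S → Matrix (Fin m) (Fin m) K) (v : Fin m → L) :
    Submodule L (S → L) :=
  LinearMap.ker (Fintype.linearCombination L
    (fun s => ((A s).map (algebraMap K L)).mulVec v))

theorem mem_kerSp {m : ℕ} [Fintype S] (A : S → Matrix (Fin m) (Fin m) K) (v : Fin m → L)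
    (w : S → L) :
    w ∈ kerSp A v ↔ (∑ s, w s • (A s).map (algebraMap K L)).mulVec v = 0 := by
  rw [kerSp, LinearMap.mem_ker, Fintype.linearCombination_apply, Matrix.sum_mulVec]
  simp only [Matrix.smul_mulVec]

theorem finrank_kerSp {m : ℕ} [Fintype S] (A : S → Matrix (Fin m) (Fin m) K) (v : Fin m → L) :
    Fintype.card S ≤ Module.finrank L (kerSp A v) + m := by
  have h1 := LinearMap.finrank_range_add_finrank_ker (Fintype.linearCombination L
    (fun s => ((A s).map (algebraMap K L)).mulVec v))
  rw [Module.finrank_fintype_fun_eq_card] at h1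
  have h2 := Submodule.finrank_le (LinearMap.range (Fintype.linearCombination L
    (fun s => ((A s).map (algebraMap K L)).mulVec v)))
  rw [Module.finrank_fintype_fun_eq_card, Fintype.card_fin] at h2
  rw [kerSp]
  omega

theorem det_eq_zero_of_mem {m : ℕ} [Fintype S] (A₀ : Matrix (Fin m) (Fin m) K)
    (A : S → Matrix (Fin m) (Fin m) K) (x : S → L) (v : Fin m → L) (hv : v ≠ 0)
    (h : (valMat A₀ A x).mulVec v = 0) (w : S → L) (hw : w ∈ kerSp A v) (c : L) :
    (valMat A₀ A (x + c • w)).det = 0 := by
  refine Matrix.exists_mulVec_eq_zero_iff.mp ⟨v, hv, ?_⟩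
  rw [valMat_add_smul, Matrix.add_mulVec, h, Matrix.smul_mulVec, (mem_kerSp A v w).mp hw,
    smul_zero, add_zero]

end general

/-- every nonzero multiple -/
theorem bound_of_multiple {K : Type u} [Field K] {N : ℕ} (hN : 3 ≤ N)
    (hK : ((N.factorial : ℕ) : K) ≠ 0) (m : ℕ) (A₀ : Matrix (Fin m) (Fin m) K)
    (A : Fin (N + 1) × Fin (N + 1) → Matrix (Fin m) (Fin m) K)
    (h : MvPolynomial (Fin (N + 1) × Fin (N + 1)) K) (hh : h ≠ 0)
    (hdet : (affMat A₀ A).det = permPoly (Fin (N + 1)) K * h) : N ^ 2 + 1 ≤ m := by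
  classical
  set f := permPoly (Fin (N + 1)) K with hf
  have hirr : Irreducible f := irreducible_permPoly
  obtain ⟨k, h', hh', hk⟩ : ∃ k h', ¬ f ∣ h' ∧ h = f ^ k * h' := by
    have hfin : FiniteMultiplicity f h := FiniteMultiplicity.of_prime_left hirr.prime hh
    obtain ⟨c, hc, hc2⟩ := hfin.exists_eq_pow_mul_and_not_dvd
    exact ⟨_, c, hc2, hc⟩
  obtain ⟨L, _, _, _, x, hx0, -, hxh, hW⟩ := exists_point K N hN hK h' hh'
  have hd0 : (valMat A₀ A x).det = 0 := by
    rw [← aeval_det_affMat, hdet, map_mul, hx0, zero_mul]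
  obtain ⟨v, hv, hAv⟩ := Matrix.exists_mulVec_eq_zero_iff.mpr hd0
  have h1 := hW (kerSp A v) (by
    intro w hw
    refine aeval_eq_zero_of_mul f h' k x w hxh fun c => ?_
    have h2 := det_eq_zero_of_mem A₀ A x v hv hAv w hw c
    rw [← aeval_det_affMat, hdet, hk] at h2
    rw [← h2]
    congr 1
    ring)
  have h2 := finrank_kerSp A v
  rw [Fintype.card_prod, Fintype.card_fin] at h2
  nlinarith

/-- the border version -/
theorem bound_of_border {K : Type u} [Field K] {N : ℕ} (hN : 3 ≤ N)
    (hK : ((N.factorial : ℕ) : K) ≠ 0) (m k : ℕ) (A₀ : Matrix (Fin m) (Fin m) (Polynomial K))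
    (A : Fin (N + 1) × Fin (N + 1) → Matrix (Fin m) (Fin m) (Polynomial K))
    (h : MvPolynomial (Fin (N + 1) × Fin (N + 1)) K) (hh : ¬ permPoly (Fin (N + 1)) K ∣ h)
    (g : MvPolynomial (Fin (N + 1) × Fin (N + 1)) (Polynomial K))
    (hdet : (affMat A₀ A).det = C (Polynomial.X ^ k) *
      (map Polynomial.C (permPoly (Fin (N + 1)) K * h) + C Polynomial.X * g)) :
    N ^ 2 + 1 ≤ m := by
  classical
  set f := permPoly (Fin (N + 1)) K with hf
  obtain ⟨L, _, _, _, x, hx0, hxd, hxh, hW⟩ := exists_point K N hN hK h hh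
  obtain ⟨W, hWm, hWf⟩ := exists_subspace_of_det (f * h) m k A₀ A g hdet x
    (by rw [map_mul, hx0, zero_mul]) (0, 0) (by
      rw [pderiv_mul, map_add, map_mul, map_mul, hx0, zero_mul, add_zero]
      exact mul_ne_zero hxd hxh)
  have h1 := hW W (by
    intro w hw
    refine aeval_eq_zero_of_mul f h 0 x w hxh fun c => ?_
    rw [zero_add, pow_one]
    exact hWf _ (W.smul_mem c hw))
  rw [Fintype.card_prod, Fintype.card_fin] at hWm
  nlinarith

/-- one more if the cofactor does not vanish at the origin -/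
theorem bound_of_multiple' {K : Type u} [Field K] {N : ℕ} (hN : 3 ≤ N)
    (hK : ((N.factorial : ℕ) : K) ≠ 0) (m : ℕ) (A₀ : Matrix (Fin m) (Fin m) K)
    (A : Fin (N + 1) × Fin (N + 1) → Matrix (Fin m) (Fin m) K)
    (h : MvPolynomial (Fin (N + 1) × Fin (N + 1)) K) (hh : constantCoeff h ≠ 0)
    (hdet : (affMat A₀ A).det = permPoly (Fin (N + 1)) K * h) : N ^ 2 + 2 ≤ m := by
  classical
  set f := permPoly (Fin (N + 1)) K with hf
  have hirr : Irreducible f := irreducible_permPoly
  have hh0 : h ≠ 0 := by
    rintro rfl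
    exact hh (map_zero _)
  have hhom : f.IsHomogeneous (N + 1) := by
    have := isHomogeneous_permPoly (N := Fin (N + 1)) (K := K)
    rwa [Fintype.card_fin] at this
  obtain ⟨k, h', hh', hk⟩ : ∃ k h', ¬ f ∣ h' ∧ h = f ^ k * h' := by
    have hfin : FiniteMultiplicity f h := FiniteMultiplicity.of_prime_left hirr.prime hh0
    obtain ⟨c, hc, hc2⟩ := hfin.exists_eq_pow_mul_and_not_dvd
    exact ⟨_, c, hc2, hc⟩
  rcases Helper59.DC.exists_corank.{u} (N + 1) m f h hhom hirr.ne_zero hh A₀ A hdet with
    ⟨g, hg0, hgd, hg⟩ | ⟨B, c, hc, hB⟩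
  · have hfg : ¬ f ∣ g := by
      rintro ⟨e, he⟩
      have he0 : e ≠ 0 := by
        rintro rfl
        exact hg0 (by rw [he, mul_zero])
      have h1 := totalDegree_mul_of_isDomain hirr.ne_zero he0
      rw [← he, hhom.totalDegree hirr.ne_zero] at h1
      omega
    have hgh : ¬ f ∣ g * h' := by
      intro h1
      rcases hirr.prime.dvd_or_dvd h1 with h2 | h2
      · exact hfg h2
      · exact hh' h2
    obtain ⟨L, _, _, _, x, hx0, -, hxgh, hW⟩ := exists_point K N hN hK (g * h') hgh
    rw [map_mul] at hxgh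
    have hxg := left_ne_zero_of_mul hxgh
    have hxh := right_ne_zero_of_mul hxgh
    have hd0 : (valMat A₀ A x).det = 0 := by
      rw [← aeval_det_affMat, hdet, map_mul, hx0, zero_mul]
    obtain ⟨v, hv, hAv⟩ := Matrix.exists_mulVec_eq_zero_iff.mpr hd0
    -- `x` is not in the space of directions
    have hxW : x ∉ kerSp A v := by
      intro h1
      rw [mem_kerSp] at h1
      apply hv
      refine hg L x v hxg ?_ h1
      rw [valMat, Matrix.add_mulVec, h1, add_zero] at hAv
      exact hAv
    have hvan : ∀ w ∈ kerSp A v, aeval (x + w) f = 0 := by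
      intro w hw
      refine aeval_eq_zero_of_mul f h' k x w hxh fun c => ?_
      have h2 := det_eq_zero_of_mem A₀ A x v hv hAv w hw c
      rw [← aeval_det_affMat, hdet, hk] at h2
      rw [← h2]
      congr 1
      ring
    -- the cone
    have hcone : ∀ w ∈ kerSp A v ⊔ Submodule.span L {x}, aeval (x + w) f = 0 := by
      intro w hw
      obtain ⟨w₁, hw₁, w₂, hw₂, rfl⟩ := Submodule.mem_sup.mp hw
      obtain ⟨b, rfl⟩ := Submodule.mem_span_singleton.mp hw₂
      -- the polynomial `f ((1 + T) x + w₁)`
      have h3 : lineP w₁ x f = 0 := by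
        refine Polynomial.eq_zero_of_infinite_isRoot _ ?_
        refine Set.Infinite.mono (s := {c : L | c ≠ 0}) ?_ ?_
        · intro c hc
          have h4 : w₁ + c • x = c • (x + c⁻¹ • w₁) := by
            rw [smul_add, smul_smul, mul_inv_cancel₀ hc, one_smul, add_comm w₁ (c • x)]
          have h5 : aeval (c • (x + c⁻¹ • w₁)) f = c ^ (N + 1) * aeval (x + c⁻¹ • w₁) f := by
            rw [hf, aeval_permPoly, aeval_permPoly]
            have h6 := (permMl (Fin (N + 1)) L).map_smul_univ (fun _ => c)
              (fun i a => (x + c⁻¹ • w₁) (i, a))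
            rw [Finset.prod_const, Finset.card_univ, Fintype.card_fin, smul_eq_mul] at h6
            exact h6
          show Polynomial.eval c (lineP w₁ x f) = 0
          rw [eval_lineP, h4, h5, hvan _ (Submodule.smul_mem _ _ hw₁), mul_zero]
        · exact Set.Finite.infinite_compl (Set.finite_singleton (0 : L))
      have h4 := eval_lineP w₁ x f (1 + b)
      rw [h3, Polynomial.eval_zero] at h4
      have h5 : x + (w₁ + b • x) = w₁ + (1 + b) • x := by
        rw [add_smul, one_smul]
        exact add_left_comm x w₁ (b • x)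
      rw [h5]
      exact h4.symm
    have h1 := hW _ hcone
    have h2 := finrank_kerSp A v
    rw [Fintype.card_prod, Fintype.card_fin] at h2
    have h3 : Module.finrank L (kerSp A v) <
        Module.finrank L ↥(kerSp A v ⊔ Submodule.span L {x}) := by
      refine Submodule.finrank_lt_finrank_of_lt (lt_of_le_of_ne le_sup_left ?_)
      intro h4
      apply hxW
      rw [h4]
      exact Submodule.mem_sup_right (Submodule.mem_span_singleton_self x)
    nlinarith
  · exfalso
    have h1 := bound_of_multiple hN hK (N + 1) 0 B (C c) (by simpa using hc)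
      (by rw [hB, mul_comm])
    nlinarith

end Pool.Agent.Helper73.DC
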