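import Mathlib
import Pool.Agent.Helper73.DC.Main

/-! The bounds for matrices over `K[e]`. -/

universe u

namespace Pool.Agent.Helper73.DC

open MvPolynomial Pool.Agent.Helper20.MR

theorem map_permPoly {K E : Type*} [Field K] [Field E] (ψ : K →+* E) (N : Type*) [Fintype N]
    [DecidableEq N] : map ψ (permPoly N K) = permPoly N E := by
  rw [permPoly, permPoly]
  refine (permMl_map (N := N) (map ψ : MvPolynomial (N × N) K →+* MvPolynomial (N × N) E)
    (fun i a => X (i, a))).trans ?_
  congr 1
  funext i a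
  exact map_X ψ (i, a)

theorem map_det_affMat {R E S : Type*} [CommRing R] [CommRing E] [Fintype S] {m : ℕ}
    (φ : R →+* E) (A₀ : Matrix (Fin m) (Fin m) R) (A : S → Matrix (Fin m) (Fin m) R) :
    map φ (affMat A₀ A).det = (affMat (A₀.map φ) (fun s => (A s).map φ)).det := by
  rw [RingHom.map_det]
  congr 1
  ext1 i j
  simp [affMat]

theorem total {K : Type u} [Field K] {N : ℕ} (hN : 3 ≤ N)
    (hK : ((N.factorial : ℕ) : K) ≠ 0) (m k : ℕ) (A₀ : Matrix (Fin m) (Fin m) (Polynomial K))
    (A : Fin (N + 1) × Fin (N + 1) → Matrix (Fin m) (Fin m) (Polynomial K))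
    (h : MvPolynomial (Fin (N + 1) × Fin (N + 1)) K)
    (g : MvPolynomial (Fin (N + 1) × Fin (N + 1)) (Polynomial K))
    (hdet : (affMat A₀ A).det = C (Polynomial.X ^ k) *
      (map Polynomial.C (permPoly (Fin (N + 1)) K * h) + C Polynomial.X * g))
    (hh : ¬ permPoly (Fin (N + 1)) K ∣ h ∨ g = 0 ∧ h ≠ 0) :
    N ^ 2 + 1 ≤ m ∧ (g = 0 → constantCoeff h ≠ 0 → N ^ 2 + 2 ≤ m) := by
  -- over the field of fractions of `K[e]`
  have key : g = 0 → ∃ h₁ : MvPolynomial (Fin (N + 1) × Fin (N + 1)) (FractionRing (Polynomial K)),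
      (h ≠ 0 → h₁ ≠ 0) ∧ (constantCoeff h ≠ 0 → constantCoeff h₁ ≠ 0) ∧
      (affMat (A₀.map (algebraMap (Polynomial K) (FractionRing (Polynomial K))))
        (fun s => (A s).map (algebraMap (Polynomial K) (FractionRing (Polynomial K))))).det =
        permPoly (Fin (N + 1)) (FractionRing (Polynomial K)) * h₁ := by
    intro hg
    have hinj : Function.Injective (algebraMap (Polynomial K) (FractionRing (Polynomial K))) :=
      IsFractionRing.injective _ _
    set φ := algebraMap (Polynomial K) (FractionRing (Polynomial K)) with hφ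
    refine ⟨C (φ (Polynomial.X ^ k)) * map (φ.comp Polynomial.C) h, ?_, ?_, ?_⟩
    · intro h0
      refine mul_ne_zero ?_ ?_
      · rw [Ne, C_eq_zero, map_eq_zero_iff φ hinj]
        exact pow_ne_zero _ Polynomial.X_ne_zero
      · rw [Ne, map_eq_zero_iff _ (map_injective _ (φ.comp Polynomial.C).injective)]
        exact h0
    · intro h0
      rw [map_mul, constantCoeff_C, constantCoeff_map]
      refine mul_ne_zero ?_ ?_
      · rw [Ne, map_eq_zero_iff φ hinj]
        exact pow_ne_zero _ Polynomial.X_ne_zero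
      · rw [Ne, map_eq_zero_iff _ (φ.comp Polynomial.C).injective]
        exact h0
    · rw [← map_det_affMat, hdet, hg, mul_zero, add_zero, map_mul, map_C, map_map, map_mul,
        map_permPoly]
      ring
  have hfac : ((N.factorial : ℕ) : FractionRing (Polynomial K)) ≠ 0 :=
    DCA.fac_map (algebraMap K (FractionRing (Polynomial K))) hK
  refine ⟨?_, ?_⟩
  · rcases hh with hh | ⟨hg, h0⟩
    · exact bound_of_border hN hK m k A₀ A h hh g hdet
    · obtain ⟨h₁, h2, -, h3⟩ := key hg
      exact bound_of_multiple hN hfac m _ _ h₁ (h2 h0) h3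
  · intro hg hc
    obtain ⟨h₁, -, h2, h3⟩ := key hg
    exact bound_of_multiple' hN hfac m _ _ h₁ (h2 hc) h3

end Pool.Agent.Helper73.DC
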